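import Pool.Agent.H633R2.TmTime
import Pool.Agent.NPC.Enc

/-!
# Clocked programs

A structured stack program can be run with a bounded amount of fuel: each round of a loop uses up
one unit of fuel, and once the fuel is gone every loop ends after at most one more round. The
clocked program always stops within a number of steps linear in the size of its data.
-/

namespace Pool.Agent.W986.Clock

open Turing Pool.Agent.NPC
open Function (update)

/-- The clocked version of a program; stack `f` holds the fuel. -/
def clk (f : ℕ) : Cmd ℕ → Cmd ℕ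
  | Cmd.skip => Cmd.skip
  | Cmd.push k b => Cmd.push k b
  | Cmd.pop k => Cmd.pop k
  | Cmd.seq c d => Cmd.seq (clk f c) (clk f d)
  | Cmd.cases k c₀ cf ct => Cmd.cases k (clk f c₀) (clk f cf) (clk f ct)
  | Cmd.loop k c => Cmd.loop k (Cmd.seq (clk f c) (Cmd.cases f (clr k) (Cmd.pop f) (Cmd.pop f)))

/-- The program does not use stack `f`. -/
def NoUse (f : ℕ) : Cmd ℕ → Prop
  | Cmd.skip => True
  | Cmd.push k _ => k ≠ f
  | Cmd.pop k => k ≠ f
  | Cmd.seq c d => NoUse f c ∧ NoUse f d
  | Cmd.cases k c₀ cf ct => k ≠ f ∧ NoUse f c₀ ∧ NoUse f cf ∧ NoUse f ct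
  | Cmd.loop k c => k ≠ f ∧ NoUse f c

theorem noUse_ev (c : Cmd ℕ) : NoUse 1 (ev c) := by
  induction c with
  | skip => trivial
  | push k b => show 2 * k ≠ 1; omega
  | pop k => show 2 * k ≠ 1; omega
  | seq c d h1 h2 => exact ⟨h1, h2⟩
  | cases k a b c h1 h2 h3 => exact ⟨by show 2 * k ≠ 1; omega, h1, h2, h3⟩
  | loop k c h => exact ⟨by show 2 * k ≠ 1; omega, h⟩

theorem bd_clk (f : ℕ) (c : Cmd ℕ) : (clk f c).bd ≤ max c.bd (f + 1) := by
  induction c with
  | skip => simp [clk, Cmd.bd]
  | push k b => simp [clk, Cmd.bd]
  | pop k => simp [clk, Cmd.bd]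
  | seq c d h1 h2 => simp only [clk, Cmd.bd]; omega
  | cases k a b c h1 h2 h3 => simp only [clk, Cmd.bd]; omega
  | loop k c h => simp only [clk, clr, Cmd.bd]; omega

/-- Stacks beyond the bound are unchanged. -/
theorem Run.unch {c : Cmd ℕ} {s s' : ℕ → List Bool} {t : ℕ} (h : Run c s s' t) (i : ℕ)
    (hi : c.bd ≤ i) : s' i = s i := by
  induction h with
  | skip s => rfl
  | push s k b =>
    simp only [Cmd.bd] at hi
    exact Function.update_of_ne (by omega) _ _
  | pop s k =>
    simp only [Cmd.bd] at hi
    exact Function.update_of_ne (by omega) _ _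
  | seq _ _ ih₁ ih₂ =>
    simp only [Cmd.bd] at hi
    rw [ih₂ (by omega), ih₁ (by omega)]
  | casesNil _ _ ih => simp only [Cmd.bd] at hi; exact ih (by omega)
  | casesFalse _ _ ih => simp only [Cmd.bd] at hi; exact ih (by omega)
  | casesTrue _ _ ih => simp only [Cmd.bd] at hi; exact ih (by omega)
  | loopNil => rfl
  | loopCons _ _ _ ih₁ ih₂ =>
    rw [ih₂ hi]
    simp only [Cmd.bd] at hi
    exact ih₁ (by omega)

theorem Runs.len {c : Cmd ℕ} {s s' : ℕ → List Bool} {n M : ℕ} (h : Runs c s s' n)
    (hM : ∀ i, (s i).length ≤ M) (i : ℕ) : (s' i).length ≤ M + n := by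
  obtain ⟨t, ht, h⟩ := h
  have := h.length_le i
  have := hM i
  omega

/-- Without fuel, a clocked program stops soon. -/
theorem exh (f : ℕ) (c : Cmd ℕ) (hc : NoUse f c) : ∃ A : ℕ, ∀ (M : ℕ) (s : ℕ → List Bool),
    s f = [] → (∀ i, (s i).length ≤ M) → ∃ s', Runs (clk f c) s s' (A * (M + 1)) ∧ s' f = [] := by
  induction c with
  | skip => exact ⟨1, fun M s hs _ => ⟨s, (Runs.skip s).mono (by omega), hs⟩⟩
  | push k b =>
    refine ⟨1, fun M s hs _ => ⟨_, (Runs.push s k b).mono (by omega), ?_⟩⟩
    rw [Function.update_of_ne (Ne.symm hc), hs]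
  | pop k =>
    refine ⟨1, fun M s hs _ => ⟨_, (Runs.pop s k).mono (by omega), ?_⟩⟩
    rw [Function.update_of_ne (Ne.symm hc), hs]
  | seq c d ihc ihd =>
    obtain ⟨A, hA⟩ := ihc hc.1
    obtain ⟨B, hB⟩ := ihd hc.2
    refine ⟨A + B * (A + 1), fun M s hs hM => ?_⟩
    obtain ⟨s1, h1, hs1⟩ := hA M s hs hM
    obtain ⟨s2, h2, hs2⟩ := hB (M + A * (M + 1)) s1 hs1 (Runs.len h1 hM)
    refine ⟨s2, (h1.seq h2).mono ?_, hs2⟩
    have : (A + B * (A + 1)) * (M + 1) = A * (M + 1) + B * (M + A * (M + 1) + 1) := by ring
    omega
  | cases k c₀ cf ct h0 hf ht =>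
    obtain ⟨A, hA⟩ := h0 hc.2.1
    obtain ⟨B, hB⟩ := hf hc.2.2.1
    obtain ⟨C, hC⟩ := ht hc.2.2.2
    refine ⟨A + B + C + 1, fun M s hs hM => ?_⟩
    have e : (A + B + C + 1) * (M + 1) = A * (M + 1) + B * (M + 1) + C * (M + 1) + (M + 1) := by
      ring
    rcases hk : s k with _ | ⟨b, l⟩
    · obtain ⟨s1, h1, hs1⟩ := hA M s hs hM
      exact ⟨s1, (Runs.casesNil hk h1).mono (by omega), hs1⟩
    · cases b
      · obtain ⟨s1, h1, hs1⟩ := hB M s hs hM
        exact ⟨s1, (Runs.casesFalse hk h1).mono (by omega), hs1⟩
      · obtain ⟨s1, h1, hs1⟩ := hC M s hs hM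
        exact ⟨s1, (Runs.casesTrue hk h1).mono (by omega), hs1⟩
  | loop k c ih =>
    obtain ⟨A, hA⟩ := ih hc.2
    refine ⟨3 * A + 8, fun M s hs hM => ?_⟩
    rcases hk : s k with _ | ⟨b, l⟩
    · exact ⟨s, (Runs.loopNil hk).mono (by nlinarith [Nat.zero_le (A * M)]), hs⟩
    · obtain ⟨s1, h1, hs1⟩ := hA M s hs hM
      have h2 := clr_runs (i := k) (s1 k) s1 _ rfl rfl
      have h3 := Runs.len h1 hM k
      refine ⟨_, (Runs.loopCons (by rw [hk]; simp) (h1.seq (Runs.casesNil hs1 h2))
        (Runs.loopNil (by simp))).mono ?_, ?_⟩
      · have : (3 * A + 8) * (M + 1) = A * (M + 1) + 2 * (M + A * (M + 1)) + (6 * M + 8) := by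
          ring
        omega
      · rw [Function.update_of_ne (Ne.symm hc.1), hs1]

/-- A run of the clocked program with fuel: either the run is completed, or the fuel runs out. -/
theorem main (f : ℕ) (c : Cmd ℕ) (hc : NoUse f c) : ∃ A : ℕ, ∀ (s s' : ℕ → List Bool) (t : ℕ),
    Run c s s' t → ∀ S : ℕ → List Bool, (∀ i, i ≠ f → S i = s i) → S f ≠ [] →
    (∃ F : List Bool, F ≠ [] ∧ F.length ≤ (S f).length ∧ (S f).length ≤ F.length + t ∧
      Runs (clk f c) S (update s' f F) (A * ((S f).length - F.length + 1))) ∨
    (∃ S', S' f = [] ∧ (S f).length ≤ t ∧ ∀ M, (∀ i, (S i).length ≤ M) →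
      Runs (clk f c) S S' (A * (M + 1))) := by
  induction c with
  | skip =>
    refine ⟨1, fun s s' t h S hS hf => Or.inl ⟨S f, hf, le_rfl, by omega, ?_⟩⟩
    cases h
    refine (Runs.skip S).conv rfl ?_ (by omega)
    funext i
    by_cases hi : i = f
    · subst hi; simp
    · rw [Function.update_of_ne hi, hS i hi]
  | push k b =>
    refine ⟨1, fun s s' t h S hS hf => Or.inl ⟨S f, hf, le_rfl, by omega, ?_⟩⟩
    cases h
    refine (Runs.push S k b).conv rfl ?_ (by omega)
    funext i
    by_cases hi : i = f
    · subst hi
      rw [Function.update_self, Function.update_of_ne (Ne.symm hc)]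
    · rw [Function.update_of_ne hi]
      by_cases hk : i = k
      · subst hk; rw [Function.update_self, Function.update_self, hS i hi]
      · rw [Function.update_of_ne hk, Function.update_of_ne hk, hS i hi]
  | pop k =>
    refine ⟨1, fun s s' t h S hS hf => Or.inl ⟨S f, hf, le_rfl, by omega, ?_⟩⟩
    cases h
    refine (Runs.pop S k).conv rfl ?_ (by omega)
    funext i
    by_cases hi : i = f
    · subst hi
      rw [Function.update_self, Function.update_of_ne (Ne.symm hc)]
    · rw [Function.update_of_ne hi]
      by_cases hk : i = k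
      · subst hk; rw [Function.update_self, Function.update_self, hS i hi]
      · rw [Function.update_of_ne hk, Function.update_of_ne hk, hS i hi]
  | seq c d ihc ihd =>
    obtain ⟨A, hA⟩ := ihc hc.1
    obtain ⟨B, hB⟩ := ihd hc.2
    obtain ⟨C, hC⟩ := exh f d hc.2
    refine ⟨A + B + B * (A + 1) + C * (A + 1), fun s s' t h S hS hf => ?_⟩
    cases h with
    | @seq _ _ _ s1 _ t1 t2 h1 h2 =>
      rcases hA _ _ _ h1 S hS hf with ⟨F, hF, hF1, hF2, hr⟩ | ⟨S1, hS1, hl, hr⟩
      · rcases hB _ _ _ h2 (update s1 f F) (fun i hi => Function.update_of_ne hi _ _)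
          (by rw [Function.update_self]; exact hF) with ⟨F', hF', hF1', hF2', hr'⟩ |
            ⟨S', hS', hl', hr'⟩
        · rw [Function.update_self] at hF1' hF2' hr'
          refine Or.inl ⟨F', hF', by omega, by omega, (hr.seq hr').mono ?_⟩
          obtain ⟨x, hx⟩ := Nat.exists_eq_add_of_le hF1
          obtain ⟨y, hy⟩ := Nat.exists_eq_add_of_le hF1'
          have e1 : (S f).length - F.length = x := by omega
          have e2 : F.length - F'.length = y := by omega
          have e3 : (S f).length - F'.length = x + y := by omega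
          rw [e1, e2, e3]
          nlinarith [Nat.zero_le (A * x), Nat.zero_le (A * y), Nat.zero_le (B * x),
            Nat.zero_le (B * y), Nat.zero_le (B * (A + 1) * (x + y + 1)),
            Nat.zero_le (C * (A + 1) * (x + y + 1))]
        · rw [Function.update_self] at hl'
          refine Or.inr ⟨S', hS', by omega, fun M hM => ?_⟩
          have hd : (S f).length - F.length ≤ M := (Nat.sub_le _ _).trans (hM f)
          have h3 := hr' (M + A * (M + 1)) (fun i => by
            refine (Runs.len hr hM i).trans ?_
            have := Nat.mul_le_mul_left A (Nat.add_le_add_right hd 1)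
            omega)
          refine (hr.seq h3).mono ?_
          have e0 := Nat.mul_le_mul_left A (Nat.add_le_add_right hd 1)
          have e1 : (A + B + B * (A + 1) + C * (A + 1)) * (M + 1) = A * (M + 1) +
            B * (M + A * (M + 1) + 1) + (B * (M + 1) + C * (A + 1) * (M + 1)) := by ring
          omega
      · refine Or.inr ?_
        obtain ⟨S2, h3, h4⟩ : ∃ S2, S2 f = [] ∧ ∀ M, (∀ i, (S i).length ≤ M) →
            Runs (clk f d) S1 S2 (C * (M + A * (M + 1) + 1)) := by
          by_cases hb : ∃ M, ∀ i, (S i).length ≤ M
          · have hb' : ∃ M, (∀ i, (S i).length ≤ M) := hb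
            classical
            have hmin := Nat.find_spec hb'
            have hmin' : ∀ M, (∀ i, (S i).length ≤ M) → Nat.find hb' ≤ M :=
              fun M hM => Nat.find_min' hb' hM
            obtain ⟨S2, h3, h4⟩ := hC (Nat.find hb' + A * (Nat.find hb' + 1)) S1 hS1
              (Runs.len (hr _ hmin) hmin)
            refine ⟨S2, h4, fun M hM => h3.mono ?_⟩
            have h5 := hmin' M hM
            have h6 := Nat.mul_le_mul_left A (Nat.succ_le_succ h5)
            exact Nat.mul_le_mul_left _ (by simp only [Nat.succ_eq_add_one] at h6; omega)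
          · exact ⟨fun _ => [], rfl, fun M hM => absurd ⟨M, hM⟩ hb⟩
        refine ⟨S2, h3, by omega, fun M hM => ((hr M hM).seq (h4 M hM)).mono ?_⟩
        have e1 : (A + B + B * (A + 1) + C * (A + 1)) * (M + 1) = A * (M + 1) +
            C * (M + A * (M + 1) + 1) + (B * (M + 1) + B * (A + 1) * (M + 1)) := by ring
        omega
  | cases k c₀ cf ct h0 hf ht =>
    obtain ⟨A, hA⟩ := h0 hc.2.1
    obtain ⟨B, hB⟩ := hf hc.2.2.1
    obtain ⟨C, hC⟩ := ht hc.2.2.2
    refine ⟨A + B + C + 1, fun s s' t h S hS hf => ?_⟩
    have e : ∀ M, (A + B + C + 1) * (M + 1) = A * (M + 1) + B * (M + 1) + C * (M + 1) + (M + 1) :=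
      fun M => by ring
    cases h with
    | @casesNil _ _ _ _ _ _ t hk h1 =>
      rcases hA _ _ _ h1 S hS hf with ⟨F, hF, hF1, hF2, hr⟩ | ⟨S1, hS1, hl, hr⟩
      · refine Or.inl ⟨F, hF, hF1, by omega, (Runs.casesNil (by rw [hS _ hc.1, hk]) hr).mono ?_⟩
        rw [e]; omega
      · refine Or.inr ⟨S1, hS1, by omega, fun M hM =>
          (Runs.casesNil (by rw [hS _ hc.1, hk]) (hr M hM)).mono ?_⟩
        rw [e]; omega
    | @casesFalse _ _ _ _ _ _ t l hk h1 =>
      rcases hB _ _ _ h1 S hS hf with ⟨F, hF, hF1, hF2, hr⟩ | ⟨S1, hS1, hl, hr⟩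
      · refine Or.inl ⟨F, hF, hF1, by omega, (Runs.casesFalse (l := l)
          (by rw [hS _ hc.1, hk]) hr).mono ?_⟩
        rw [e]; omega
      · refine Or.inr ⟨S1, hS1, by omega, fun M hM =>
          (Runs.casesFalse (l := l) (by rw [hS _ hc.1, hk]) (hr M hM)).mono ?_⟩
        rw [e]; omega
    | @casesTrue _ _ _ _ _ _ t l hk h1 =>
      rcases hC _ _ _ h1 S hS hf with ⟨F, hF, hF1, hF2, hr⟩ | ⟨S1, hS1, hl, hr⟩
      · refine Or.inl ⟨F, hF, hF1, by omega, (Runs.casesTrue (l := l)
          (by rw [hS _ hc.1, hk]) hr).mono ?_⟩
        rw [e]; omega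
      · refine Or.inr ⟨S1, hS1, by omega, fun M hM =>
          (Runs.casesTrue (l := l) (by rw [hS _ hc.1, hk]) (hr M hM)).mono ?_⟩
        rw [e]; omega
  | loop k c ih =>
    obtain ⟨A, hA⟩ := ih hc.2
    obtain ⟨A', hA'⟩ := exh f (Cmd.loop k c) hc
    -- the loop
    have key : ∀ (d : Cmd ℕ) (s s' : ℕ → List Bool) (t : ℕ), Run d s s' t → d = Cmd.loop k c →
        ∀ S : ℕ → List Bool, (∀ i, i ≠ f → S i = s i) → S f ≠ [] →
        (∃ F : List Bool, F ≠ [] ∧ F.length ≤ (S f).length ∧ (S f).length ≤ F.length + t ∧
          Runs (clk f (Cmd.loop k c)) S (update s' f F)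
            ((A + 3) * ((S f).length - F.length) + 1)) ∨
        (∃ S', S' f = [] ∧ (S f).length ≤ t ∧ ∀ M, (∀ i, (S i).length ≤ M) →
          Runs (clk f (Cmd.loop k c)) S S' ((A + 3) * (S f).length +
            (3 * A + A' + 8) * (M + (A + 3) * (S f).length + 1))) := by
      intro d s s' t h
      induction h with
      | skip => intro h; cases h
      | push => intro h; cases h
      | pop => intro h; cases h
      | seq => intro h; cases h
      | casesNil => intro h; cases h
      | casesFalse => intro h; cases h
      | casesTrue => intro h; cases h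
      | @loopNil k' c' s hk =>
        intro h S hS hf
        obtain ⟨rfl, rfl⟩ : k' = k ∧ c' = c := by cases h; exact ⟨rfl, rfl⟩
        refine Or.inl ⟨S f, hf, le_rfl, by omega, ?_⟩
        refine (Runs.loopNil (by rw [hS _ hc.1, hk])).conv rfl ?_ (by omega)
        funext i
        by_cases hi : i = f
        · subst hi; simp
        · rw [Function.update_of_ne hi, hS i hi]
      | @loopCons k' c' s s1 s2 t1 t2 hk h1 h2 _ ih2 =>
        intro h S hS hf
        obtain ⟨rfl, rfl⟩ : k' = k ∧ c' = c := by cases h; exact ⟨rfl, rfl⟩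
        have hk' : S k' ≠ [] := by rw [hS _ hc.1]; exact hk
        rcases hA _ _ _ h1 S hS hf with ⟨F, hF, hF1, hF2, hr⟩ | ⟨S1, hS1, hl, hr⟩
        · -- the body is completed
          have hpop : Runs (Cmd.cases f (clr k') (Cmd.pop f) (Cmd.pop f)) (update s1 f F)
              (update s1 f F.tail) 2 := by
            rcases F with _ | ⟨b, F⟩
            · exact absurd rfl hF
            · have hp := (Runs.pop (update s1 f (b :: F)) f).conv rfl
                (s₁' := update s1 f F) (by simp) le_rfl
              cases b
              · exact (Runs.casesFalse (l := F) (by simp) hp)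
              · exact (Runs.casesTrue (l := F) (by simp) hp)
          have hFl : 1 ≤ F.length := List.length_pos_iff.2 hF
          have htl : F.tail.length = F.length - 1 := by simp
          by_cases hT : F.tail = []
          · -- no fuel is left
            have hF3 : F.length = 1 := by
              have := congrArg List.length hT
              simp at this; omega
            refine Or.inr ?_
            have hstate : ∀ M, (∀ i, (S i).length ≤ M) → ∀ i, (update s1 f F.tail i).length ≤
                M + (A + 3) * (S f).length := by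
              intro M hM i
              have h3 := Runs.len (hr.seq hpop) hM i
              have h4 : A * ((S f).length - F.length + 1) + 2 ≤ (A + 3) * (S f).length := by
                have : (S f).length - F.length + 1 ≤ (S f).length := by omega
                have := Nat.mul_le_mul_left A this
                have h5 : (A + 3) * (S f).length = A * (S f).length + 3 * (S f).length := by ring
                omega
              omega
            obtain ⟨S2, h3, h4⟩ : ∃ S2, S2 f = [] ∧ ∀ M, (∀ i, (S i).length ≤ M) →
                Runs (clk f (Cmd.loop k' c')) (update s1 f F.tail) S2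
                  (A' * (M + (A + 3) * (S f).length + 1)) := by
              by_cases hb : ∃ M, ∀ i, (S i).length ≤ M
              · classical
                have hmin := Nat.find_spec hb
                have hmin' : ∀ M, (∀ i, (S i).length ≤ M) → Nat.find hb ≤ M :=
                  fun M hM => Nat.find_min' hb hM
                obtain ⟨S2, h3, h4⟩ := hA' (Nat.find hb + (A + 3) * (S f).length)
                  (update s1 f F.tail) (by rw [Function.update_self, hT]) (hstate _ hmin)
                refine ⟨S2, h4, fun M hM => h3.mono ?_⟩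
                exact Nat.mul_le_mul_left _ (by have := hmin' M hM; omega)
              · exact ⟨fun _ => [], rfl, fun M hM => absurd ⟨M, hM⟩ hb⟩
            refine ⟨S2, h3, by omega, fun M hM => ?_⟩
            refine (Runs.loopCons hk' (hr.seq hpop) (h4 M hM)).mono ?_
            have h5 : (S f).length - F.length + 1 = (S f).length := by omega
            have h6 : 1 ≤ (S f).length := by omega
            rw [h5]
            generalize (S f).length = x at *
            have h7 : (A + 3) * x = A * x + 3 * x := by ring
            have h8 : (3 * A + A' + 8) * (M + (A + 3) * x + 1) =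
              A' * (M + (A + 3) * x + 1) + (3 * A + 8) * (M + (A + 3) * x + 1) := by ring
            omega
          · rcases ih2 rfl (update s1 f F.tail) (fun i hi => Function.update_of_ne hi _ _)
              (by rw [Function.update_self]; exact hT) with ⟨F', hF', hF1', hF2', hr'⟩ |
                ⟨S', hS', hl', hr'⟩
            · rw [Function.update_self] at hF1' hF2' hr'
              rw [htl] at hF1' hF2' hr'
              refine Or.inl ⟨F', hF', by omega, by omega, ?_⟩
              refine (Runs.loopCons hk' (hr.seq hpop) hr').mono ?_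
              obtain ⟨x, hx⟩ := Nat.exists_eq_add_of_le hF1
              obtain ⟨y, hy⟩ := Nat.exists_eq_add_of_le hF1'
              have e1 : (S f).length - F.length = x := by omega
              have e2 : F.length - 1 - F'.length = y := by omega
              have e3 : (S f).length - F'.length = x + 1 + y := by omega
              rw [e1, e2, e3]
              have : (A + 3) * (x + 1 + y) = A * (x + 1) + 3 * (x + 1) + (A + 3) * y := by ring
              omega
            · rw [Function.update_self, htl] at hl' hr'
              refine Or.inr ⟨S', hS', by omega, fun M hM => ?_⟩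
              obtain ⟨x, hx⟩ := Nat.exists_eq_add_of_le hF1
              obtain ⟨y, hy⟩ := Nat.exists_eq_add_of_le hFl
              have e1 : (S f).length - F.length = x := by omega
              have e2 : F.length - 1 = y := by omega
              have e3 : (S f).length = x + 1 + y := by omega
              rw [e1] at hr
              rw [e2] at hr'
              have h5 := hr' (M + (A + 3) * (x + 1)) (fun i => by
                have h3 := Runs.len (hr.seq hpop) hM i
                have : (A + 3) * (x + 1) = A * (x + 1) + 3 * (x + 1) := by ring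
                omega)
              refine (Runs.loopCons hk' (hr.seq hpop) h5).mono ?_
              rw [e3]
              have h6 : (A + 3) * (x + 1 + y) = A * (x + 1) + 3 * (x + 1) + (A + 3) * y := by ring
              have h7 : M + (A + 3) * (x + 1) + (A + 3) * y + 1 =
                M + (A + 3) * (x + 1 + y) + 1 := by ring
              rw [h7, h6]
              generalize (3 * A + A' + 8) * (M + (A * (x + 1) + 3 * (x + 1) + (A + 3) * y) + 1) = z
              omega
        · -- the fuel runs out in the body
          refine Or.inr ⟨update S1 k' [], ?_, by omega, fun M hM => ?_⟩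
          · rw [Function.update_of_ne (Ne.symm hc.1), hS1]
          · have h3 := clr_runs (i := k') (S1 k') S1 _ rfl rfl
            have h4 := Runs.len (hr M hM) hM k'
            refine (Runs.loopCons hk' ((hr M hM).seq (Runs.casesNil hS1 h3))
              (Runs.loopNil (by simp))).mono ?_
            generalize (S f).length = x at *
            have h5 : (3 * A + A' + 8) * (M + (A + 3) * x + 1) =
              A * (M + 1) + 2 * (M + A * (M + 1)) + (6 * M + 8 + A' * (M + (A + 3) * x + 1) +
                (3 * A + 8) * ((A + 3) * x)) := by ring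
            omega
    refine ⟨(A + 3) + (3 * A + A' + 8) * ((A + 3) + 1), fun s s' t h S hS hf => ?_⟩
    rcases key _ s s' t h rfl S hS hf with ⟨F, hF, hF1, hF2, hr⟩ | ⟨S1, hS1, hl, hr⟩
    · refine Or.inl ⟨F, hF, hF1, hF2, hr.mono ?_⟩
      generalize (S f).length - F.length = x
      nlinarith [Nat.zero_le (A * x), Nat.zero_le ((3 * A + A' + 8) * ((A + 3) + 1) * x)]
    · refine Or.inr ⟨S1, hS1, hl, fun M hM => (hr M hM).mono ?_⟩
      have h5 := hM f
      have h6 := Nat.mul_le_mul_left (A + 3) h5
      have h7 : (3 * A + A' + 8) * (M + (A + 3) * (S f).length + 1) ≤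
        (3 * A + A' + 8) * (M + (A + 3) * M + 1) := Nat.mul_le_mul_left _ (by omega)
      have h8 : ((A + 3) + (3 * A + A' + 8) * ((A + 3) + 1)) * (M + 1) =
        (A + 3) * M + (3 * A + A' + 8) * (M + (A + 3) * M + 1) +
          ((A + 3) + (3 * A + A' + 8) * (A + 3)) := by ring
      omega

/-- Empty the stacks `0, ..., n`. -/
def clrAll : ℕ → Cmd ℕ
  | 0 => clr 0
  | n + 1 => Cmd.seq (clrAll n) (clr (n + 1))

theorem clrAll_runs (n : ℕ) (M : ℕ) (s : ℕ → List Bool) (hM : ∀ i, (s i).length ≤ M) :
    Runs (clrAll n) s (fun i => if i ≤ n then [] else s i) ((2 * M + 1) * (n + 1)) := by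
  induction n with
  | zero =>
    refine (clr_runs (i := 0) (s 0) s _ rfl rfl).conv rfl ?_ (by have := hM 0; omega)
    funext i
    by_cases hi : i = 0
    · subst hi; simp
    · rw [Function.update_of_ne hi]; simp [hi]
  | succ n ih =>
    refine (ih.seq (clr_runs (i := n + 1) (s (n + 1)) _ _ (by simp) rfl)).conv rfl ?_ ?_
    · funext i
      by_cases hi : i = n + 1
      · subst hi; simp
      · rw [Function.update_of_ne hi]
        by_cases hi2 : i ≤ n
        · simp only [hi2, if_true, (by omega : i ≤ n + 1)]
        · have hi3 : ¬ i ≤ n + 1 := by omega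
          simp only [hi2, if_false, hi3]
    · have := hM (n + 1)
      have e : (2 * M + 1) * (n + 1 + 1) = (2 * M + 1) * (n + 1) + (2 * M + 1) := by ring
      omega

/-- What is done after a completed run. -/
def post : Cmd ℕ :=
  Cmd.seq (mv 0 2) (Cmd.seq (Cmd.push 0 false) (Cmd.seq (mv 2 0)
    (Cmd.seq (Cmd.push 0 true) (clr 1))))

theorem post_runs (y F : List Bool) : Runs post (st y F []) (st (true :: (y ++ [false])) [] [])
    (8 * y.length + 2 * F.length + 5) := by
  have h1 := mv_runs (i := 0) (j := 2) (by decide) y (st y F []) (st [] F y.reverse) rfl (by simp)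
  have h2 := (Runs.push (st [] F y.reverse) 0 false).conv rfl
    (s₁' := st [false] F y.reverse) (by simp) le_rfl
  have h3 := mv_runs (i := 2) (j := 0) (by decide) y.reverse (st [false] F y.reverse)
    (st (y ++ [false]) F []) rfl (by simp)
  have h4 := (Runs.push (st (y ++ [false]) F []) 0 true).conv rfl
    (s₁' := st (true :: (y ++ [false])) F []) (by simp) le_rfl
  have h5 := clr_runs (i := 1) F (st (true :: (y ++ [false])) F [])
    (st (true :: (y ++ [false])) [] []) rfl (by simp)
  exact (h1.seq (h2.seq (h3.seq (h4.seq h5)))).mono (by simp; omega)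

/-- **Running a program with a clock.** Suppose that a program computes `h a` from `x a` in time
`T a`. Then there is a polynomial-time computable function `g` of the pair of a list `u a` of
units and of `x a` which gives either no answer or `h a`, and which gives `h a` when the list is
longer than `T a`. -/
theorem clock {α β γ : Type} [TEnc β] [TEnc γ] (x : α → β) (h : α → γ) (prog : Cmd ℕ) (Tm : α → ℕ)
    (hp : ∀ a, Runs prog (inp (bits (x a))) (inp (bits (h a))) (Tm a)) (u : α → List Unit) :
    ∃ g : α → Option γ, (∀ a, g a = none ∨ g a = some (h a)) ∧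
      (∀ a, Tm a < (u a).length → g a = some (h a)) ∧
      PC (fun a => bits (u a, x a)) (bits : Option γ → List Bool) g := by
  classical
  obtain ⟨A, hA⟩ := main 1 (ev prog) (noUse_ev prog)
  set N := (clk 1 (ev prog)).bd + 1 with hN
  set fin : Cmd ℕ := Cmd.cases 1 (Cmd.seq (clrAll N) (Cmd.push 0 false)) post post with hfin
  have key : ∀ a, ∃ o : Option γ, (o = none ∨ o = some (h a)) ∧
      (Tm a < (u a).length → o = some (h a)) ∧
      Runs (Cmd.seq split (Cmd.seq (clk 1 (ev prog)) fin)) (inp (bits (u a, x a)))
        (inp (bits o)) ((5 * (bits (u a, x a)).length + 20) +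
          (A * ((bits (u a, x a)).length + 1) + (((2 * ((bits (u a, x a)).length +
            A * ((bits (u a, x a)).length + 1)) + 1) * (N + 1) + 10 * ((bits (u a, x a)).length +
            A * ((bits (u a, x a)).length + 1))) + 20))) := by
    intro a
    have hlen : (bits (u a, x a)).length = (toT (u a)).enc.length + (bits (x a)).length + 1 := by
      show (T.node (toT (u a)) (toT (x a))).enc.length = _
      simp [T.enc, bits]
    have h1 : Runs split (inp (bits (u a, x a))) (st (bits (x a)) (toT (u a)).enc.reverse [])
        (5 * (bits (u a, x a)).length + 20) := by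
      rw [inp_eq_st]
      refine (split_runs (toT (u a)) (toT (x a))).mono ?_
      rw [hlen]
      simp only [bits, T.size]
      omega
    have h2 := ev_runs (hp a) []
    obtain ⟨t, ht, h2⟩ := h2
    have hu : (u a).length < (toT (u a)).enc.length := Pool.Agent.NPC.length_lt_sz (u a)
    set L := (bits (u a, x a)).length with hL
    have hM : ∀ i, (st (bits (x a)) (toT (u a)).enc.reverse [] i).length ≤ L := by
      intro i
      match i with
      | 0 => simp only [st_zero]; omega
      | 1 => simp only [st_one, List.length_reverse]; omega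
      | 2 => simp
      | n + 3 => simp [st]
    rcases hA _ _ _ h2 (st (bits (x a)) (toT (u a)).enc.reverse []) (by
        intro i hi
        match i, hi with
        | 0, _ => rfl
        | 2, _ => simp
        | n + 3, _ => simp [st]) (by simp [T.enc_ne_nil]) with ⟨F, hF, hF1, hF2, hr⟩ |
          ⟨S1, hS1, hl, hr⟩
    · refine ⟨some (h a), Or.inr rfl, fun _ => rfl, ?_⟩
      rw [update_st_one] at hr
      rw [st_one, List.length_reverse] at hF1 hF2 hr
      have hr2 : Runs (clk 1 (ev prog)) (st (bits (x a)) (toT (u a)).enc.reverse [])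
          (st (bits (h a)) F []) (A * (L + 1)) := hr.mono (Nat.mul_le_mul_left _ (by omega))
      have hy : (bits (h a)).length ≤ L + A * (L + 1) := by
        have := Runs.len hr2 hM 0
        simpa using this
      have hpost : Runs fin (st (bits (h a)) F []) (inp (bits (some (h a))))
          (8 * (bits (h a)).length + 2 * F.length + 5 + 1) := by
        have h3 := (post_runs (bits (h a)) F).conv rfl
          (s₁' := inp (bits (some (h a)))) (by
            rw [inp_eq_st]
            congr 1) le_rfl
        rcases F with _ | ⟨b, F⟩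
        · exact absurd rfl hF
        · cases b
          · exact Runs.casesFalse (l := F) (by simp) h3
          · exact Runs.casesTrue (l := F) (by simp) h3
      refine (h1.seq (hr2.seq hpost)).mono ?_
      have : F.length ≤ L := by omega
      generalize (2 * (L + A * (L + 1)) + 1) * (N + 1) = z
      omega
    · rw [st_one, List.length_reverse] at hl
      refine ⟨none, Or.inl rfl, fun h => by omega, ?_⟩
      have hr1 := hr L hM
      have hfin1 : Runs fin S1 (inp (bits (none : Option γ)))
          ((2 * (L + A * (L + 1)) + 1) * (N + 1) + 1 + 1) := by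
        refine Runs.casesNil hS1 (((clrAll_runs N _ S1 (Runs.len hr1 hM)).seq
          (Runs.push _ 0 false)).conv rfl ?_ le_rfl)
        funext i
        by_cases hi : i = 0
        · subst hi
          simp [inp, bits, T.enc]
        · rw [Function.update_of_ne hi]
          simp only [inp, Function.update_of_ne hi]
          by_cases hi2 : i ≤ N
          · simp [hi2]
          · simp only [hi2, if_false]
            obtain ⟨t', _, hr1⟩ := hr1
            rw [Run.unch hr1 i (by omega)]
            match i, hi with
            | 1, _ => omega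
            | 2, _ => simp
            | n + 3, _ => simp [st]
      refine (h1.seq (hr1.seq hfin1)).mono ?_
      generalize (2 * (L + A * (L + 1)) + 1) * (N + 1) = z
      omega
  choose g hg1 hg2 hg3 using key
  refine ⟨g, hg1, hg2, Cmd.seq split (Cmd.seq (clk 1 (ev prog)) fin),
    (Polynomial.C 5 * Polynomial.X + Polynomial.C 20) + (Polynomial.C A * (Polynomial.X + 1) +
      (((Polynomial.C 2 * (Polynomial.X + Polynomial.C A * (Polynomial.X + 1)) + 1) *
        Polynomial.C (N + 1) + Polynomial.C 10 * (Polynomial.X +
          Polynomial.C A * (Polynomial.X + 1))) + Polynomial.C 20)), fun a => ?_⟩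
  refine (hg3 a).mono ?_
  simp only [Polynomial.eval_add, Polynomial.eval_mul, Polynomial.eval_C, Polynomial.eval_X,
    Polynomial.eval_one]
  exact le_rfl

end Pool.Agent.W986.Clock
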