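import Pool.Agent.H633R2.FptDefs

/-!
# The bounded faces of a polyhedron given by inequalities: definitions
-/

namespace Pool.Agent.W986.BF

open Turing Pool.Agent.NPC Pool.Agent.H633R2

/-- A system of linear inequalities with rational data: the dimension `d` and the list of the
inequalities. The inequality `(a, b)` says `a₀ x₀ + ... + a_{d-1} x_{d-1} ≤ b`. -/
abbrev LinSys : Type := ℕ × List (List ℚ × ℚ)

/-- The left-hand side of an inequality at a point. -/
noncomputable def lhs {d : ℕ} (r : List ℚ × ℚ) (x : Fin d → ℝ) : ℝ :=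
  ∑ i : Fin d, ((r.1.getD i 0 : ℚ) : ℝ) * x i

/-- The polyhedron of the solutions of a system. -/
def polyhedron (S : LinSys) : Set (Fin S.1 → ℝ) := {x | ∀ r ∈ S.2, lhs r x ≤ ((r.2 : ℚ) : ℝ)}

/-- The instances of the problem: all inequalities have the right number of coefficients, and the
polyhedron is pointed (it has a vertex) and unbounded. -/
def Instance (S : LinSys) : Prop :=
  (∀ r ∈ S.2, r.1.length = S.1) ∧ ((polyhedron S).extremePoints ℝ).Nonempty ∧
    ¬ Bornology.IsBounded (polyhedron S)

/-- The bounded nonempty faces of the polyhedron. -/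
def boundedFaces (S : LinSys) : Set (Set (Fin S.1 → ℝ)) :=
  {F | F.Nonempty ∧ IsExposed ℝ (polyhedron S) F ∧ Bornology.IsBounded F}

open Classical in
/-- The increasing list of the numbers of the inequalities that are tight on a face. -/
noncomputable def tight (S : LinSys) (F : Set (Fin S.1 → ℝ)) : List ℕ :=
  (List.range S.2.length).filter fun j =>
    decide (∀ x ∈ F, lhs (S.2.getD j ([], 0)) x = (((S.2.getD j ([], 0)).2 : ℚ) : ℝ))

/-- `H = (V, E)` is the Hasse diagram of the set of bounded faces: `V` lists the bounded faces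
(each one exactly once, given by its tight inequalities), and `E` lists the pairs `(i, j)` such
that the `i`-th face of the list is covered by the `j`-th one. -/
def IsHasse (S : LinSys) (H : List (List ℕ) × List (ℕ × ℕ)) : Prop :=
  H.1.Nodup ∧ (∀ t, t ∈ H.1 ↔ ∃ F ∈ boundedFaces S, tight S F = t) ∧
  H.2.Nodup ∧ ∀ i j, (i, j) ∈ H.2 ↔ ∃ F ∈ boundedFaces S, ∃ G ∈ boundedFaces S,
    H.1[i]? = some (tight S F) ∧ H.1[j]? = some (tight S G) ∧ F ⊂ G ∧
      ¬ ∃ K ∈ boundedFaces S, F ⊂ K ∧ K ⊂ G

/-- The Hasse diagram of the bounded faces can be computed in polynomial total time: some Turing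
machine outputs, for each instance, the Hasse diagram in time polynomial in the size of the
instance plus the size of the output. -/
def PolyTotalTime : Prop :=
  ∃ (M : TM2ComputableAux Bool Bool) (p : Polynomial ℕ), ∀ S, Instance S →
    ∃ H, IsHasse S H ∧ TmRuns M (bits S) (bits H) (p.eval ((bits S).length + (bits H).length))

end Pool.Agent.W986.BF
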