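import Mathlib

/-!
# The polyhedron of a graph and a number: geometry
-/

namespace Pool.Agent.W986.BF

/-- The value of a vector at an index, `0` outside the range. -/
def ex {d : ℕ} (v : Fin d → ℝ) (t : ℕ) : ℝ := if h : t < d then v ⟨t, h⟩ else 0

theorem ex_add {d : ℕ} (v w : Fin d → ℝ) (t : ℕ) : ex (v + w) t = ex v t + ex w t := by
  unfold ex; split <;> simp

theorem ex_smul {d : ℕ} (c : ℝ) (v : Fin d → ℝ) (t : ℕ) : ex (c • v) t = c * ex v t := by
  unfold ex; split <;> simp

/-- The same as a continuous linear map. -/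
noncomputable def exL (d t : ℕ) : (Fin d → ℝ) →L[ℝ] ℝ :=
  if h : t < d then ContinuousLinearMap.proj (⟨t, h⟩ : Fin d) else 0

theorem exL_apply {d : ℕ} (t : ℕ) (v : Fin d → ℝ) : exL d t v = ex v t := by
  unfold exL ex; split <;> simp

/-- A face given by an affine function which is nonnegative on the set. -/
theorem exposed_of {d : ℕ} {P F : Set (Fin d → ℝ)} (L : (Fin d → ℝ) →L[ℝ] ℝ) (C : ℝ)
    (h0 : ∀ v ∈ P, 0 ≤ C + L v) (hF : F = {v ∈ P | C + L v = 0}) : IsExposed ℝ P F := by
  rintro ⟨v0, hv0⟩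
  refine ⟨-L, ?_⟩
  rw [hF] at hv0 ⊢
  ext x
  simp only [Set.mem_ofPred_eq, neg_apply, neg_le_neg_iff]
  refine and_congr_right fun hx => ⟨fun h y hy => ?_, fun h => ?_⟩
  · have := h0 y hy
    linarith
  · have h1 := h v0 hv0.1
    have h2 := hv0.2
    have h3 := h0 x hx
    linarith

section

variable (n k : ℕ) (adj : ℕ → ℕ → Bool)

/-- The vector with given parts. -/
noncomputable def mk (x : ℕ → ℕ → ℝ) (z : ℕ → ℝ) : Fin (k * n + k) → ℝ :=
  fun t => if (t : ℕ) < k * n then x (t / n) (t % n) else z (t - k * n)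

variable {n k}

theorem idx_lt {i a : ℕ} (hi : i < k) (ha : a < n) : i * n + a < k * n := by
  calc i * n + a < i * n + n := by omega
    _ = (i + 1) * n := by ring
    _ ≤ k * n := Nat.mul_le_mul_right _ hi

/-- The `x`-coordinates. -/
def X (v : Fin (k * n + k) → ℝ) (i a : ℕ) : ℝ := ex v (i * n + a)

/-- The `z`-coordinates. -/
def Z (v : Fin (k * n + k) → ℝ) (i : ℕ) : ℝ := ex v (k * n + i)

/-- The number `τ = 1 - 2 Σ z_i`. -/
def tau (v : Fin (k * n + k) → ℝ) : ℝ := 1 - 2 * ∑ i ∈ Finset.range k, Z v i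

theorem X_mk {x : ℕ → ℕ → ℝ} {z : ℕ → ℝ} {i a : ℕ} (hi : i < k) (ha : a < n) :
    X (mk n k x z) i a = x i a := by
  have h := idx_lt hi ha
  unfold X ex mk
  rw [dif_pos (by omega)]
  simp only [h, if_true]
  have h1 : (i * n + a) / n = i := by
    rw [mul_comm, Nat.mul_add_div (by omega), Nat.div_eq_of_lt ha, add_zero]
  have h2 : (i * n + a) % n = a := by
    rw [mul_comm, Nat.mul_add_mod, Nat.mod_eq_of_lt ha]
  rw [h1, h2]

theorem Z_mk {x : ℕ → ℕ → ℝ} {z : ℕ → ℝ} {i : ℕ} (hi : i < k) :
    Z (mk n k x z) i = z i := by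
  unfold Z ex mk
  rw [dif_pos (by omega)]
  simp

theorem tau_mk {x : ℕ → ℕ → ℝ} {z : ℕ → ℝ} :
    tau (mk n k x z) = 1 - 2 * ∑ i ∈ Finset.range k, z i := by
  unfold tau
  congr 2
  exact Finset.sum_congr rfl fun i hi => Z_mk (Finset.mem_range.1 hi)

theorem ext_XZ {v w : Fin (k * n + k) → ℝ} (hX : ∀ i < k, ∀ a < n, X v i a = X w i a)
    (hZ : ∀ i < k, Z v i = Z w i) : v = w := by
  funext t
  by_cases ht : (t : ℕ) < k * n
  · have hn : 0 < n := by
      rcases Nat.eq_zero_or_pos n with h | h
      · subst h; simp at ht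
      · exact h
    have h := hX (t / n) (Nat.div_lt_of_lt_mul (by have := Nat.mul_comm k n; omega)) (t % n)
      (Nat.mod_lt _ hn)
    unfold X ex at h
    have e : (t : ℕ) / n * n + t % n = t := Nat.div_add_mod' _ _
    rw [dif_pos (by rw [e]; exact t.2), dif_pos (by rw [e]; exact t.2)] at h
    simp only [e] at h
    exact h
  · have h := hZ (t - k * n) (by have := t.2; omega)
    unfold Z ex at h
    have e : k * n + ((t : ℕ) - k * n) = t := by omega
    rw [dif_pos (by rw [e]; exact t.2), dif_pos (by rw [e]; exact t.2)] at h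
    simp only [e] at h
    exact h

/-- The polyhedron. -/
def PP : Set (Fin (k * n + k) → ℝ) :=
  {v | (∀ i < k, ∀ a < n, 0 ≤ X v i a ∧ X v i a ≤ tau v ∧ X v i a ≤ tau v + Z v i) ∧
    ∀ j < k, ∀ i < j, ∀ a < n, ∀ b < n, adj a b = false → X v i a + X v j b ≤ tau v}

/-- The face of a set `A` of indices. -/
def FF (A : Finset ℕ) : Set (Fin (k * n + k) → ℝ) :=
  {v | (∀ i < k, ∀ a < n, X v i a = 0) ∧ tau v = 0 ∧ (∀ i < k, 0 ≤ Z v i) ∧
    ∀ i < k, i ∉ A → Z v i = 0}

/-- The vertex with index `i`. -/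
noncomputable def vt (n k i : ℕ) : Fin (k * n + k) → ℝ :=
  mk n k (fun _ _ => 0) (fun j => if j = i then 1 / 2 else 0)

theorem tau_vt {i : ℕ} (hi : i < k) : tau (vt n k i) = 0 := by
  unfold vt
  rw [tau_mk, Finset.sum_ite_eq' (Finset.range k) i (fun _ => (1 / 2 : ℝ))]
  simp [hi]

theorem vt_mem_FF {A : Finset ℕ} {i : ℕ} (hi : i < k) : vt n k i ∈ FF (n := n) (k := k) A ↔ i ∈ A := by
  constructor
  · intro h
    by_contra hA
    have := h.2.2.2 i hi hA
    unfold vt at this
    rw [Z_mk hi] at this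
    norm_num at this
  · intro hA
    refine ⟨fun j hj a ha => X_mk hj ha, tau_vt hi, fun j hj => ?_, fun j hj hjA => ?_⟩
    · unfold vt; rw [Z_mk hj]; split <;> norm_num
    · unfold vt; rw [Z_mk hj, if_neg (by rintro rfl; exact hjA hA)]

theorem FF_sub (A : Finset ℕ) : FF (n := n) (k := k) A ⊆ PP adj := by
  rintro v ⟨h1, h2, h3, -⟩
  refine ⟨fun i hi a ha => ?_, fun j hj i hi a ha b hb _ => ?_⟩
  · rw [h1 i hi a ha, h2]
    exact ⟨le_rfl, le_rfl, by have := h3 i hi; linarith⟩
  · rw [h1 i (hi.trans hj) a ha, h1 j hj b hb, h2]; norm_num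

theorem tau_nonneg (hn : 0 < n) (hk : 0 < k) {v : Fin (k * n + k) → ℝ} (hv : v ∈ PP adj) :
    0 ≤ tau v := by
  have h := hv.1 0 hk 0 hn
  linarith

theorem tau_add_nonneg (hn : 0 < n) {v : Fin (k * n + k) → ℝ} (hv : v ∈ PP adj) {i : ℕ}
    (hi : i < k) : 0 ≤ tau v + Z v i := by
  have h := hv.1 i hi 0 hn
  linarith

theorem sum_Z_of_tau {v : Fin (k * n + k) → ℝ} (h : tau v = 0) :
    ∑ i ∈ Finset.range k, Z v i = 1 / 2 := by
  unfold tau at h; linarith

/-- `τ` minus its constant term. -/
noncomputable def tauL (n k : ℕ) : (Fin (k * n + k) → ℝ) →L[ℝ] ℝ :=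
  -((2 : ℝ) • ∑ i ∈ Finset.range k, exL (k * n + k) (k * n + i))

theorem tauL_apply (v : Fin (k * n + k) → ℝ) : tau v = 1 + tauL n k v := by
  unfold tau tauL Z
  simp only [neg_apply, smul_apply,
    sum_apply, exL_apply, smul_eq_mul]
  ring

/-- `FF A` is an exposed face. -/
theorem FF_exposed (hn : 0 < n) (hk : 0 < k) (A : Finset ℕ) :
    IsExposed ℝ (PP (n := n) (k := k) adj) (FF A) := by
  classical
  refine exposed_of ((∑ i ∈ Finset.range k, ∑ a ∈ Finset.range n, exL (k * n + k) (i * n + a)) +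
    tauL n k + ∑ i ∈ (Finset.range k).filter (fun i => i ∉ A),
      (exL (k * n + k) (k * n + i) + tauL n k))
    (1 + ((Finset.range k).filter (fun i => i ∉ A)).card) ?_ ?_
  all_goals
    have key : ∀ v : Fin (k * n + k) → ℝ,
      (1 + (((Finset.range k).filter (fun i => i ∉ A)).card : ℝ)) +
      ((∑ i ∈ Finset.range k, ∑ a ∈ Finset.range n, exL (k * n + k) (i * n + a)) +
      tauL n k + ∑ i ∈ (Finset.range k).filter (fun i => i ∉ A),
      (exL (k * n + k) (k * n + i) + tauL n k)) v =
      (∑ i ∈ Finset.range k, ∑ a ∈ Finset.range n, X v i a) + tau v +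
        ∑ i ∈ (Finset.range k).filter (fun i => i ∉ A), (tau v + Z v i) := by
      intro v
      have e : tauL n k v = tau v - 1 := by rw [tauL_apply]; ring
      simp only [add_apply, sum_apply, exL_apply, e]
      simp only [Finset.sum_add_distrib, Finset.sum_const, nsmul_eq_mul]
      unfold X Z
      ring
  · intro v hv
    rw [key]
    have h1 : 0 ≤ ∑ i ∈ Finset.range k, ∑ a ∈ Finset.range n, X v i a :=
      Finset.sum_nonneg fun i hi => Finset.sum_nonneg fun a ha =>
        (hv.1 i (Finset.mem_range.1 hi) a (Finset.mem_range.1 ha)).1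
    have h2 := tau_nonneg adj hn hk hv
    have h3 : 0 ≤ ∑ i ∈ (Finset.range k).filter (fun i => i ∉ A), (tau v + Z v i) :=
      Finset.sum_nonneg fun i hi => tau_add_nonneg adj hn hv
        (Finset.mem_range.1 (Finset.mem_filter.1 hi).1)
    linarith
  · ext v
    simp only [Set.mem_ofPred_eq, key]
    constructor
    · intro hv
      refine ⟨FF_sub adj A hv, ?_⟩
      obtain ⟨h1, h2, h3, h4⟩ := hv
      rw [h2]
      have e1 : ∑ i ∈ Finset.range k, ∑ a ∈ Finset.range n, X v i a = 0 :=
        Finset.sum_eq_zero fun i hi => Finset.sum_eq_zero fun a ha =>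
          h1 i (Finset.mem_range.1 hi) a (Finset.mem_range.1 ha)
      have e2 : ∑ i ∈ (Finset.range k).filter (fun i => i ∉ A), (0 + Z v i) = 0 :=
        Finset.sum_eq_zero fun i hi => by
          rw [Finset.mem_filter, Finset.mem_range] at hi
          rw [h4 i hi.1 hi.2]; ring
      rw [e1, e2]; ring
    · rintro ⟨hv, h⟩
      have hx : ∀ i ∈ Finset.range k, 0 ≤ ∑ a ∈ Finset.range n, X v i a := fun i hi =>
        Finset.sum_nonneg fun a ha =>
          (hv.1 i (Finset.mem_range.1 hi) a (Finset.mem_range.1 ha)).1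
      have h1 := Finset.sum_nonneg hx
      have h2 := tau_nonneg adj hn hk hv
      have hz : ∀ i ∈ (Finset.range k).filter (fun i => i ∉ A), 0 ≤ tau v + Z v i := fun i hi =>
        tau_add_nonneg adj hn hv (Finset.mem_range.1 (Finset.mem_filter.1 hi).1)
      have h3 := Finset.sum_nonneg hz
      have e1 : ∑ i ∈ Finset.range k, ∑ a ∈ Finset.range n, X v i a = 0 := by linarith
      have e2 : tau v = 0 := by linarith
      have e3 : ∑ i ∈ (Finset.range k).filter (fun i => i ∉ A), (tau v + Z v i) = 0 := by linarith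
      refine ⟨fun i hi a ha => ?_, e2, fun i hi => ?_, fun i hi hA => ?_⟩
      · have e4 := (Finset.sum_eq_zero_iff_of_nonneg hx).1 e1 i (Finset.mem_range.2 hi)
        exact (Finset.sum_eq_zero_iff_of_nonneg (fun a ha =>
          (hv.1 i hi a (Finset.mem_range.1 ha)).1)).1 e4 a (Finset.mem_range.2 ha)
      · have := tau_add_nonneg adj hn hv hi
        linarith
      · have e4 := (Finset.sum_eq_zero_iff_of_nonneg hz).1 e3 i
          (Finset.mem_filter.2 ⟨Finset.mem_range.2 hi, hA⟩)
        linarith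

theorem FF_bounded (A : Finset ℕ) : Bornology.IsBounded (FF (n := n) (k := k) A) := by
  rw [Metric.isBounded_iff_subset_closedBall 0]
  refine ⟨1, fun v hv => ?_⟩
  rw [mem_closedBall_zero_iff, pi_norm_le_iff_of_nonneg zero_le_one]
  obtain ⟨h1, h2, h3, -⟩ := hv
  have hs := sum_Z_of_tau h2
  intro t
  by_cases ht : (t : ℕ) < k * n
  · have hn : 0 < n := by
      rcases Nat.eq_zero_or_pos n with h | h
      · subst h; simp at ht
      · exact h
    have h := h1 (t / n) (Nat.div_lt_of_lt_mul (by have := Nat.mul_comm k n; omega)) (t % n)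
      (Nat.mod_lt _ hn)
    unfold X ex at h
    have e : (t : ℕ) / n * n + t % n = t := Nat.div_add_mod' _ _
    rw [dif_pos (by rw [e]; exact t.2)] at h
    simp only [e] at h
    have h' : v t = 0 := h
    rw [h']; simp
  · have hlt : (t : ℕ) - k * n < k := by have := t.2; omega
    have h := h3 (t - k * n) hlt
    have h' : Z v (t - k * n) = v t := by
      unfold Z ex
      have e : k * n + ((t : ℕ) - k * n) = t := by omega
      rw [dif_pos (by rw [e]; exact t.2)]
      simp only [e]
    have h4 : Z v (t - k * n) ≤ 1 / 2 := by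
      rw [← hs]
      exact Finset.single_le_sum (f := fun i => Z v i)
        (fun i hi => h3 i (Finset.mem_range.1 hi)) (Finset.mem_range.2 hlt)
    rw [h'] at h h4
    rw [Real.norm_eq_abs, abs_le]
    constructor <;> linarith

/-- The decomposition, when there is no clique. -/
theorem decomp (hn : 0 < n) (hk : 0 < k)
    (hcl : ¬ ∃ a : ℕ → ℕ, (∀ i < k, a i < n) ∧ ∀ j < k, ∀ i < j, adj (a i) (a j) = true)
    {v : Fin (k * n + k) → ℝ} (hv : v ∈ PP adj) :
    ∃ u r : Fin (k * n + k) → ℝ, v = u + r ∧ u ∈ FF (n := n) (k := k) (Finset.range k) ∧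
      ∀ w ∈ PP (n := n) (k := k) adj, ∀ t : ℝ, 0 ≤ t → w + t • r ∈ PP adj := by
  classical
  have ht := tau_nonneg adj hn hk hv
  have hne : (Finset.range n).Nonempty := ⟨0, Finset.mem_range.2 hn⟩
  -- the maxima
  have hmax : ∀ i, ∃ a < n, ∀ b < n, X v i b ≤ X v i a := by
    intro i
    obtain ⟨a, ha, h⟩ := Finset.exists_max_image (Finset.range n) (fun a => X v i a) hne
    exact ⟨a, Finset.mem_range.1 ha, fun b hb => h b (Finset.mem_range.2 hb)⟩
  choose am ham hmx using hmax
  -- some maximum is at most half of tau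
  obtain ⟨i0, hi0, hM0⟩ : ∃ i < k, X v i (am i) ≤ tau v / 2 := by
    by_contra hcon
    push Not at hcon
    refine hcl ⟨am, fun i _ => ham i, fun j hj i hi => ?_⟩
    by_contra hadj
    have h1 := hv.2 j hj i hi (am i) (ham i) (am j) (ham j) (by simpa using hadj)
    have h2 := hcon i (hi.trans hj)
    have h3 := hcon j hj
    linarith
  set m : ℕ → ℝ := fun i => Z v i - X v i (am i) + tau v with hm
  have hm0 : ∀ i < k, 0 ≤ m i := fun i hi => by
    have := (hv.1 i hi (am i) (ham i)).2.2
    simp only [hm]; linarith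
  have hsm : 1 / 2 ≤ ∑ i ∈ Finset.range k, m i := by
    have e1 : ∑ i ∈ Finset.range k, m i =
        ∑ i ∈ Finset.range k, Z v i + ∑ i ∈ Finset.range k, (tau v - X v i (am i)) := by
      rw [← Finset.sum_add_distrib]
      exact Finset.sum_congr rfl fun i _ => by simp only [hm]; ring
    have e2 : tau v / 2 ≤ ∑ i ∈ Finset.range k, (tau v - X v i (am i)) := by
      refine le_trans ?_ (Finset.single_le_sum (f := fun i => tau v - X v i (am i))
        (fun i hi => ?_) (Finset.mem_range.2 hi0))
      · show tau v / 2 ≤ tau v - X v i0 (am i0)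
        linarith
      · have := (hv.1 i (Finset.mem_range.1 hi) (am i) (ham i)).2.1
        show 0 ≤ tau v - X v i (am i)
        linarith
    have e3 : ∑ i ∈ Finset.range k, Z v i = (1 - tau v) / 2 := by unfold tau; ring
    rw [e1, e3]; linarith
  set s := ∑ i ∈ Finset.range k, m i with hs
  have hs0 : 0 < s := by linarith
  set c : ℕ → ℝ := fun i => m i / (2 * s) with hc
  have hc0 : ∀ i < k, 0 ≤ c i := fun i hi => div_nonneg (hm0 i hi) (by linarith)
  have hcm : ∀ i < k, c i ≤ m i := fun i hi =>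
    div_le_self (hm0 i hi) (by linarith)
  have hcs : ∑ i ∈ Finset.range k, c i = 1 / 2 := by
    simp only [hc]
    rw [← Finset.sum_div, ← hs]
    field_simp
  refine ⟨mk n k (fun _ _ => 0) c, v - mk n k (fun _ _ => 0) c, by abel, ?_, ?_⟩
  · refine ⟨fun i hi a ha => X_mk hi ha, ?_, fun i hi => ?_, fun i hi hA => ?_⟩
    · rw [tau_mk, hcs]; norm_num
    · rw [Z_mk hi]; exact hc0 i hi
    · exact absurd (Finset.mem_range.2 hi) hA
  · intro w hw t ht0
    set r := v - mk n k (fun _ _ => 0) c with hr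
    have hrX : ∀ i < k, ∀ a < n, X r i a = X v i a := by
      intro i hi a ha
      have h1 : X v i a = X r i a + X (mk n k (fun _ _ => 0) c) i a := by
        unfold X; rw [← ex_add, hr]; congr 1; abel
      rw [X_mk hi ha] at h1; linarith
    have hrZ : ∀ i < k, Z r i = Z v i - c i := by
      intro i hi
      have h1 : Z v i = Z r i + Z (mk n k (fun _ _ => 0) c) i := by
        unfold Z; rw [← ex_add, hr]; congr 1; abel
      rw [Z_mk hi] at h1; linarith
    have hwX : ∀ i a, X (w + t • r) i a = X w i a + t * X r i a := by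
      intro i a; unfold X; rw [ex_add, ex_smul]
    have hwZ : ∀ i, Z (w + t • r) i = Z w i + t * Z r i := by
      intro i; unfold Z; rw [ex_add, ex_smul]
    have hwt : tau (w + t • r) = tau w + t * tau v := by
      unfold tau
      have e1 : ∑ i ∈ Finset.range k, Z (w + t • r) i = ∑ i ∈ Finset.range k, Z w i +
          t * (∑ i ∈ Finset.range k, Z v i - 1 / 2) := by
        rw [← hcs, ← Finset.sum_sub_distrib, Finset.mul_sum, ← Finset.sum_add_distrib]
        refine Finset.sum_congr rfl fun i hi => ?_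
        rw [hwZ, hrZ i (Finset.mem_range.1 hi)]
      rw [e1]; ring
    refine ⟨fun i hi a ha => ?_, fun j hj i hi a ha b hb hab => ?_⟩
    · rw [hwX, hwt, hwZ, hrX i hi a ha, hrZ i hi]
      obtain ⟨w1, w2, w3⟩ := hw.1 i hi a ha
      obtain ⟨v1, v2, v3⟩ := hv.1 i hi a ha
      have h4 : X v i a ≤ tau v + (Z v i - c i) := by
        have h5 := hmx i a ha
        have h6 := hcm i hi
        simp only [hm] at h6
        linarith
      refine ⟨by have := mul_nonneg ht0 v1; linarith,
        by have := mul_le_mul_of_nonneg_left v2 ht0; linarith, ?_⟩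
      have := mul_le_mul_of_nonneg_left h4 ht0
      rw [mul_add] at this
      linarith
    · rw [hwX, hwX, hwt, hrX i (hi.trans hj) a ha, hrX j hj b hb]
      have h1 := hw.2 j hj i hi a ha b hb hab
      have h2 := hv.2 j hj i hi a ha b hb hab
      have := mul_le_mul_of_nonneg_left h2 ht0
      rw [mul_add] at this
      linarith

/-- A point of `FF (range k)` is the combination of the vertices with coefficients `2 z_i`. -/
theorem eq_sum_vt {v : Fin (k * n + k) → ℝ} (hv : v ∈ FF (n := n) (k := k) (Finset.range k)) :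
    v = ∑ i ∈ Finset.range k, (2 * Z v i) • vt n k i := by
  have hX : ∀ (s : Finset ℕ) (i a : ℕ), X (∑ j ∈ s, (2 * Z v j) • vt n k j) i a =
      ∑ j ∈ s, 2 * Z v j * X (vt n k j) i a := by
    intro s i a
    classical
    induction s using Finset.induction_on with
    | empty => simp [X, ex]
    | insert j s hj ih =>
      rw [Finset.sum_insert hj, Finset.sum_insert hj, ← ih]
      unfold X; rw [ex_add, ex_smul]
  have hZ : ∀ (s : Finset ℕ) (i : ℕ), Z (∑ j ∈ s, (2 * Z v j) • vt n k j) i =
      ∑ j ∈ s, 2 * Z v j * Z (vt n k j) i := by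
    intro s i
    classical
    induction s using Finset.induction_on with
    | empty => simp [Z, ex]
    | insert j s hj ih =>
      rw [Finset.sum_insert hj, Finset.sum_insert hj, ← ih]
      unfold Z; rw [ex_add, ex_smul]
  refine ext_XZ (fun i hi a ha => ?_) (fun i hi => ?_)
  · rw [hX, hv.1 i hi a ha]
    refine (Finset.sum_eq_zero fun j _ => ?_).symm
    have : X (vt n k j) i a = 0 := X_mk hi ha
    rw [this, mul_zero]
  · rw [hZ]
    have : ∀ j ∈ Finset.range k, 2 * Z v j * Z (vt n k j) i = if i = j then Z v i else 0 := by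
      intro j _
      unfold vt
      rw [Z_mk hi]
      split
      · rename_i h; subst h; ring
      · ring
    rw [Finset.sum_congr rfl this, Finset.sum_ite_eq (Finset.range k) i]
    simp [hi]

/-- **The bounded faces, when there is no clique.** -/
theorem faces_noClique (hn : 0 < n) (hk : 0 < k)
    (hcl : ¬ ∃ a : ℕ → ℕ, (∀ i < k, a i < n) ∧ ∀ j < k, ∀ i < j, adj (a i) (a j) = true)
    {F : Set (Fin (k * n + k) → ℝ)} (hF : F.Nonempty) (hE : IsExposed ℝ (PP adj) F)
    (hB : Bornology.IsBounded F) : ∃ A ⊆ Finset.range k, A.Nonempty ∧ F = FF A := by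
  classical
  obtain ⟨l, hl⟩ := hE hF
  have hmem : ∀ v ∈ F, v ∈ PP adj ∧ ∀ y ∈ PP adj, l y ≤ l v := by
    intro v hv; rw [hl] at hv; exact hv
  -- `F` is contained in the big simplex
  have hsub : ∀ v ∈ F, v ∈ FF (n := n) (k := k) (Finset.range k) := by
    intro v hv
    obtain ⟨hvP, hmax⟩ := hmem v hv
    obtain ⟨u, r, hur, hu, hr⟩ := decomp adj hn hk hcl hvP
    have hray : ∀ t : ℝ, 0 ≤ t → v + t • r ∈ F := by
      intro t ht
      have h1 := hr v hvP t ht
      have h2 : 0 ≤ l r := by
        have h3 := hmax u (FF_sub adj _ hu)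
        have h4 : l v = l u + l r := by rw [hur, map_add]
        linarith
      rw [hl]
      refine ⟨h1, fun y hy => ?_⟩
      rw [map_add, map_smul, smul_eq_mul]
      have := hmax y hy
      have := mul_nonneg ht h2
      linarith
    have hr0 : r = 0 := by
      by_contra hne
      obtain ⟨R, hR⟩ := hB.exists_norm_le
      have hpos : 0 < ‖r‖ := norm_pos_iff.2 hne
      have hRv := hR v hv
      have hR0 : 0 ≤ R := le_trans (norm_nonneg v) hRv
      have h1 := hR _ (hray ((2 * R + 1) / ‖r‖) (by positivity))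
      have h2 : ‖((2 * R + 1) / ‖r‖) • r‖ = 2 * R + 1 := by
        rw [norm_smul, Real.norm_eq_abs, abs_of_nonneg (by positivity)]
        field_simp
      have h3 : ‖((2 * R + 1) / ‖r‖) • r‖ ≤ ‖v + ((2 * R + 1) / ‖r‖) • r‖ + ‖v‖ := by
        have := norm_sub_le (v + ((2 * R + 1) / ‖r‖) • r) v
        simpa using this
      linarith
    rw [hur, hr0, add_zero]
    exact hu
  set A := (Finset.range k).filter (fun i => vt n k i ∈ F) with hA
  have key : ∀ v ∈ F, v ∈ FF (n := n) (k := k) A := by
    intro v hv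
    have hv' := hsub v hv
    refine ⟨hv'.1, hv'.2.1, hv'.2.2.1, fun i hi hiA => ?_⟩
    by_contra hz
    have hz' : 0 < Z v i := lt_of_le_of_ne (hv'.2.2.1 i hi) (Ne.symm hz)
    apply hiA
    rw [hA, Finset.mem_filter, Finset.mem_range]
    refine ⟨hi, ?_⟩
    have hvt : ∀ j < k, vt n k j ∈ PP adj := fun j hj =>
      FF_sub adj (Finset.range k) ((vt_mem_FF hj).2 (Finset.mem_range.2 hj))
    have hle : ∀ j < k, l (vt n k j) ≤ l v := fun j hj => (hmem v hv).2 _ (hvt j hj)
    have e1 : l v = ∑ j ∈ Finset.range k, 2 * Z v j * l (vt n k j) := by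
      conv_lhs => rw [eq_sum_vt hv']
      rw [map_sum]
      exact Finset.sum_congr rfl fun j _ => by rw [map_smul, smul_eq_mul]
    have e2 : ∑ j ∈ Finset.range k, 2 * Z v j * (l v - l (vt n k j)) = 0 := by
      have : ∑ j ∈ Finset.range k, 2 * Z v j * (l v - l (vt n k j)) =
          2 * (∑ j ∈ Finset.range k, Z v j) * l v -
            ∑ j ∈ Finset.range k, 2 * Z v j * l (vt n k j) := by
        rw [Finset.mul_sum, Finset.sum_mul, ← Finset.sum_sub_distrib]
        exact Finset.sum_congr rfl fun j _ => by ring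
      rw [this, ← e1, sum_Z_of_tau hv'.2.1]; ring
    have e3 := (Finset.sum_eq_zero_iff_of_nonneg (fun j hj => mul_nonneg
      (mul_nonneg zero_le_two (hv'.2.2.1 j (Finset.mem_range.1 hj)))
      (sub_nonneg.2 (hle j (Finset.mem_range.1 hj))))).1 e2 i (Finset.mem_range.2 hi)
    have e4 : l v = l (vt n k i) := by
      rcases mul_eq_zero.1 e3 with h | h
      · exfalso; linarith
      · linarith
    rw [hl]
    exact ⟨hvt i hi, fun y hy => e4 ▸ (hmem v hv).2 y hy⟩
  refine ⟨A, Finset.filter_subset _ _, ?_, ?_⟩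
  · obtain ⟨v, hv⟩ := hF
    have hv' := key v hv
    by_contra hne
    rw [Finset.not_nonempty_iff_eq_empty] at hne
    have h1 := sum_Z_of_tau hv'.2.1
    have h2 : ∑ i ∈ Finset.range k, Z v i = 0 := Finset.sum_eq_zero fun i hi =>
      hv'.2.2.2 i (Finset.mem_range.1 hi) (by rw [hne]; simp)
    rw [h2] at h1
    norm_num at h1
  · refine Set.Subset.antisymm key ?_
    intro v hv
    have hv' : v ∈ FF (n := n) (k := k) (Finset.range k) :=
      ⟨hv.1, hv.2.1, hv.2.2.1, fun i hi h => absurd (Finset.mem_range.2 hi) h⟩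
    obtain ⟨w, hw⟩ := hF
    rw [hl]
    refine ⟨FF_sub adj A hv, fun y hy => ?_⟩
    have e1 : l v = ∑ j ∈ Finset.range k, 2 * Z v j * l (vt n k j) := by
      conv_lhs => rw [eq_sum_vt hv']
      rw [map_sum]
      exact Finset.sum_congr rfl fun j _ => by rw [map_smul, smul_eq_mul]
    have e2 : ∀ j ∈ Finset.range k, 2 * Z v j * l (vt n k j) = 2 * Z v j * l w := by
      intro j hj
      by_cases hjA : j ∈ A
      · have hj' : vt n k j ∈ F := (Finset.mem_filter.1 hjA).2
        have h1 := (hmem _ hj').2 w (hmem w hw).1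
        have h2 := (hmem w hw).2 _ (hmem _ hj').1
        rw [le_antisymm h2 h1]
      · rw [hv.2.2.2 j (Finset.mem_range.1 hj) hjA]; ring
    have e3 : l v = l w := by
      rw [e1, Finset.sum_congr rfl e2, ← Finset.sum_mul, ← Finset.mul_sum,
        sum_Z_of_tau hv.2.1]
      ring
    rw [e3]
    exact (hmem w hw).2 y hy

/-- The additional vertex given by a clique. -/
noncomputable def uc (n k : ℕ) (a : ℕ → ℕ) : Fin (k * n + k) → ℝ :=
  mk n k (fun i b => if b = a i then 1 else 0) (fun _ => 0)

theorem tau_uc (a : ℕ → ℕ) : tau (uc n k a) = 1 := by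
  unfold uc; rw [tau_mk]; simp

theorem uc_mem {a : ℕ → ℕ}
    (ha2 : ∀ j < k, ∀ i < j, adj (a i) (a j) = true) : uc n k a ∈ PP adj := by
  refine ⟨fun i hi b hb => ?_, fun j hj i hi b hb c hc hbc => ?_⟩
  · rw [tau_uc]
    unfold uc
    rw [X_mk hi hb, Z_mk hi]
    split <;> norm_num
  · rw [tau_uc]
    unfold uc
    rw [X_mk (hi.trans hj) hb, X_mk hj hc]
    by_cases h1 : b = a i
    · by_cases h2 : c = a j
      · rw [h1, h2, ha2 j hj i hi] at hbc
        cases hbc
      · simp only [h2, if_false]; split <;> norm_num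
    · simp only [h1, if_false]; split <;> norm_num

theorem uc_exposed {a : ℕ → ℕ} (ha1 : ∀ i < k, a i < n)
    (ha2 : ∀ j < k, ∀ i < j, adj (a i) (a j) = true) :
    IsExposed ℝ (PP (n := n) (k := k) adj) {uc n k a} := by
  classical
  refine exposed_of ((∑ i ∈ Finset.range k, ∑ b ∈ (Finset.range n).filter (fun b => b ≠ a i),
      exL (k * n + k) (i * n + b)) +
    ∑ i ∈ Finset.range k, (tauL n k - exL (k * n + k) (i * n + a i)) +
    ∑ i ∈ Finset.range k, (tauL n k + exL (k * n + k) (k * n + i) -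
      exL (k * n + k) (i * n + a i))) (k + k) ?_ ?_
  all_goals
    have key : ∀ v : Fin (k * n + k) → ℝ, ((k : ℝ) + k) +
      ((∑ i ∈ Finset.range k, ∑ b ∈ (Finset.range n).filter (fun b => b ≠ a i),
      exL (k * n + k) (i * n + b)) +
      ∑ i ∈ Finset.range k, (tauL n k - exL (k * n + k) (i * n + a i)) +
      ∑ i ∈ Finset.range k, (tauL n k + exL (k * n + k) (k * n + i) -
      exL (k * n + k) (i * n + a i))) v =
      (∑ i ∈ Finset.range k, ∑ b ∈ (Finset.range n).filter (fun b => b ≠ a i), X v i b) +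
      (∑ i ∈ Finset.range k, (tau v - X v i (a i))) +
      ∑ i ∈ Finset.range k, (tau v + Z v i - X v i (a i)) := by
      intro v
      have e : tauL n k v = tau v - 1 := by rw [tauL_apply]; ring
      simp only [add_apply, sum_apply, exL_apply, e, sub_apply]
      simp only [Finset.sum_add_distrib, Finset.sum_sub_distrib,
        Finset.sum_const, nsmul_eq_mul, Finset.card_range]
      unfold X Z
      ring
  · intro v hv
    rw [key]
    have h1 : 0 ≤ ∑ i ∈ Finset.range k, ∑ b ∈ (Finset.range n).filter (fun b => b ≠ a i),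
        X v i b := Finset.sum_nonneg fun i hi => Finset.sum_nonneg fun b hb =>
        (hv.1 i (Finset.mem_range.1 hi) b (Finset.mem_range.1 (Finset.mem_filter.1 hb).1)).1
    have h2 : 0 ≤ ∑ i ∈ Finset.range k, (tau v - X v i (a i)) :=
      Finset.sum_nonneg fun i hi => by
        have := (hv.1 i (Finset.mem_range.1 hi) (a i) (ha1 i (Finset.mem_range.1 hi))).2.1
        linarith
    have h3 : 0 ≤ ∑ i ∈ Finset.range k, (tau v + Z v i - X v i (a i)) :=
      Finset.sum_nonneg fun i hi => by
        have := (hv.1 i (Finset.mem_range.1 hi) (a i) (ha1 i (Finset.mem_range.1 hi))).2.2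
        linarith
    linarith
  · ext v
    simp only [Set.mem_singleton_iff, Set.mem_ofPred_eq, key]
    constructor
    · rintro rfl
      refine ⟨uc_mem adj ha2, ?_⟩
      rw [tau_uc]
      have e1 : ∑ i ∈ Finset.range k, ∑ b ∈ (Finset.range n).filter (fun b => b ≠ a i),
          X (uc n k a) i b = 0 := Finset.sum_eq_zero fun i hi => Finset.sum_eq_zero fun b hb => by
        rw [Finset.mem_filter, Finset.mem_range] at hb
        unfold uc
        rw [X_mk (Finset.mem_range.1 hi) hb.1, if_neg hb.2]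
      have e2 : ∀ i ∈ Finset.range k, X (uc n k a) i (a i) = 1 := fun i hi => by
        unfold uc
        rw [X_mk (Finset.mem_range.1 hi) (ha1 i (Finset.mem_range.1 hi)), if_pos rfl]
      have e3 : ∀ i ∈ Finset.range k, Z (uc n k a) i = 0 := fun i hi =>
        Z_mk (Finset.mem_range.1 hi)
      rw [e1, Finset.sum_eq_zero (fun i hi => by rw [e2 i hi]; ring),
        Finset.sum_eq_zero (fun i hi => by rw [e2 i hi, e3 i hi]; ring)]
      ring
    · rintro ⟨hv, h⟩
      have hx : ∀ i ∈ Finset.range k, 0 ≤ ∑ b ∈ (Finset.range n).filter (fun b => b ≠ a i),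
        X v i b := fun i hi => Finset.sum_nonneg fun b hb =>
        (hv.1 i (Finset.mem_range.1 hi) b (Finset.mem_range.1 (Finset.mem_filter.1 hb).1)).1
      have hy : ∀ i ∈ Finset.range k, 0 ≤ tau v - X v i (a i) := fun i hi => by
        have := (hv.1 i (Finset.mem_range.1 hi) (a i) (ha1 i (Finset.mem_range.1 hi))).2.1
        linarith
      have hz : ∀ i ∈ Finset.range k, 0 ≤ tau v + Z v i - X v i (a i) := fun i hi => by
        have := (hv.1 i (Finset.mem_range.1 hi) (a i) (ha1 i (Finset.mem_range.1 hi))).2.2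
        linarith
      have h1 := Finset.sum_nonneg hx
      have h2 := Finset.sum_nonneg hy
      have h3 := Finset.sum_nonneg hz
      have e1 := (Finset.sum_eq_zero_iff_of_nonneg hx).1 (by linarith)
      have e2 := (Finset.sum_eq_zero_iff_of_nonneg hy).1 (by linarith)
      have e3 := (Finset.sum_eq_zero_iff_of_nonneg hz).1 (by linarith)
      have hZ0 : ∀ i < k, Z v i = 0 := fun i hi => by
        have := e2 i (Finset.mem_range.2 hi)
        have := e3 i (Finset.mem_range.2 hi)
        linarith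
      have ht1 : tau v = 1 := by
        unfold tau
        rw [Finset.sum_eq_zero fun i hi => hZ0 i (Finset.mem_range.1 hi)]
        ring
      refine ext_XZ (fun i hi b hb => ?_) (fun i hi => ?_)
      · unfold uc
        rw [X_mk hi hb]
        by_cases hba : b = a i
        · rw [if_pos hba, hba]
          have := e2 i (Finset.mem_range.2 hi)
          linarith
        · rw [if_neg hba]
          exact (Finset.sum_eq_zero_iff_of_nonneg (fun b hb =>
            (hv.1 i hi b (Finset.mem_range.1 (Finset.mem_filter.1 hb).1)).1)).1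
            (e1 i (Finset.mem_range.2 hi)) b
            (Finset.mem_filter.2 ⟨Finset.mem_range.2 hb, hba⟩)
      · unfold uc
        rw [hZ0 i hi, Z_mk hi]

/-- The polyhedron has a vertex. -/
theorem pointed (hn : 0 < n) (hk : 0 < k) :
    ((PP (n := n) (k := k) adj).extremePoints ℝ).Nonempty := by
  refine ⟨vt n k 0, ?_⟩
  have h1 := FF_exposed adj hn hk {0}
  have h2 : FF (n := n) (k := k) {0} = {vt n k 0} := by
    ext v
    rw [Set.mem_singleton_iff]
    constructor
    · intro hv
      refine ext_XZ (fun i hi a ha => ?_) (fun i hi => ?_)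
      · rw [hv.1 i hi a ha]; unfold vt; rw [X_mk hi ha]
      · unfold vt
        rw [Z_mk hi]
        by_cases h : i = 0
        · rw [if_pos h, h]
          have := sum_Z_of_tau hv.2.1
          rw [Finset.sum_eq_single 0 (fun j hj hj0 => hv.2.2.2 j (Finset.mem_range.1 hj)
            (by simpa using hj0)) (fun h => absurd (Finset.mem_range.2 hk) h)] at this
          exact this
        · rw [if_neg h]
          exact hv.2.2.2 i hi (by simpa using h)
    · rintro rfl
      exact (vt_mem_FF hk).2 (Finset.mem_singleton_self 0)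
  rw [h2] at h1
  exact isExtreme_singleton.1 h1.isExtreme

/-- The polyhedron is unbounded. -/
theorem unbounded (hk : 0 < k) : ¬ Bornology.IsBounded (PP (n := n) (k := k) adj) := by
  intro hB
  obtain ⟨R, hR⟩ := hB.exists_norm_le
  set v : Fin (k * n + k) → ℝ := mk n k (fun _ _ => 0) (fun j => if j = 0 then -(|R| + 1) else 0)
    with hv
  have ht : tau v = 1 + 2 * (|R| + 1) := by
    rw [hv, tau_mk, Finset.sum_ite_eq' (Finset.range k) 0 (fun _ => -(|R| + 1))]
    simp only [Finset.mem_range, hk, if_true]; ring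
  have hR0 := abs_nonneg R
  have hmem : v ∈ PP (n := n) (k := k) adj := by
    refine ⟨fun i hi a ha => ?_, fun j hj i hi a ha b hb _ => ?_⟩
    · rw [ht, hv, X_mk hi ha, Z_mk hi]
      refine ⟨le_rfl, by linarith, ?_⟩
      split <;> linarith
    · rw [ht, hv, X_mk (hi.trans hj) ha, X_mk hj hb]; linarith
  have h1 := hR v hmem
  have h2 := norm_le_pi_norm v ⟨k * n + 0, by omega⟩
  have h3 : v ⟨k * n + 0, by omega⟩ = -(|R| + 1) := by
    have := Z_mk (n := n) (x := fun _ _ => (0 : ℝ)) (z := fun j => if j = 0 then -(|R| + 1) else 0) hk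
    unfold Z ex at this
    rw [dif_pos (by omega)] at this
    rw [hv]
    simpa using this
  rw [h3, Real.norm_eq_abs, abs_neg, abs_of_nonneg (by linarith)] at h2
  have := le_abs_self R
  linarith

end

end Pool.Agent.W986.BF
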