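import Pool.Agent.H633R2.FptPad
import Pool.Agent.W986.BF.Clock

/-!
# Computations in time polynomial in the size of the instance plus a given quantity
-/

namespace Pool.Agent.W986.TimeC

open Turing Pool.Agent.NPC Pool.Agent.H633R2
open Function (update)

/-- Computability by programs in time polynomial in the length of the input plus `w`. -/
def WC {α β : Type} (ea : α → List Bool) (eb : β → List Bool) (w : α → ℕ) (f : α → β) : Prop :=
  ∃ (c : Cmd ℕ) (p : Polynomial ℕ),
    ∀ a, Runs c (inp (ea a)) (inp (eb (f a))) (p.eval ((ea a).length + w a))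

section

variable {α β γ : Type} {ea : α → List Bool} {eb : β → List Bool} {ec : γ → List Bool}
  {w : α → ℕ}

theorem WC.of_PC {f : α → β} (h : PC ea eb f) : WC ea eb w f := by
  obtain ⟨c, p, h⟩ := h
  exact ⟨c, p, fun a => (h a).mono (eval_mono p (by omega))⟩

theorem WC.length_le {f : α → β} (h : WC ea eb w f) :
    ∃ p : Polynomial ℕ, ∀ a, (eb (f a)).length ≤ p.eval ((ea a).length + w a) := by
  obtain ⟨c, p, h⟩ := h
  refine ⟨Polynomial.X + p, fun a => ?_⟩
  obtain ⟨t, ht, hr⟩ := h a
  have := hr.length_le 0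
  simp only [inp, Function.update_self] at this
  simp only [Polynomial.eval_add, Polynomial.eval_X]
  omega

theorem WC.comp {g : β → γ} {f : α → β} (hg : PC eb ec g) (hf : WC ea eb w f) :
    WC ea ec w (fun a => g (f a)) := by
  obtain ⟨q, hq⟩ := hf.length_le
  obtain ⟨c, p, hf⟩ := hf
  obtain ⟨d, r, hg⟩ := hg
  refine ⟨Cmd.seq c d, p + r.comp q, fun a => ?_⟩
  refine ((hf a).seq (hg (f a))).mono ?_
  simp only [Polynomial.eval_add, Polynomial.eval_comp]
  exact Nat.add_le_add_left (eval_mono r (hq a)) _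

theorem WC.node {f g : α → T} (hf : WC ea T.enc w f) (hg : WC ea T.enc w g) :
    WC ea T.enc w (fun a => T.node (f a) (g a)) := by
  obtain ⟨q, hq⟩ := hf.length_le
  obtain ⟨q', hq'⟩ := hg.length_le
  obtain ⟨c, p, hf⟩ := hf
  obtain ⟨d, r, hg⟩ := hg
  refine ⟨Cmd.seq (Cmd.seq (mv 0 2) (cp 2 0 1)) (Cmd.seq (ev c) (Cmd.seq (od d)
    (Cmd.seq (mv 0 2) (Cmd.seq (mv 2 1) (Cmd.seq (Cmd.push 1 true)
      (Cmd.seq (mv 1 2) (mv 2 0))))))),
    Polynomial.C 9 * Polynomial.X + p + r + Polynomial.C 16 * (q + q') + Polynomial.C 30,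
    fun a => ?_⟩
  rw [inp_eq_st, inp_eq_st]
  have h1 := dup_runs (ea a)
  have h2 := ev_runs (hf a) (ea a)
  have h3 := od_runs (hg a) (f a).enc
  have h4 := mv_runs (i := 0) (j := 2) (by decide) (f a).enc (st (f a).enc (g a).enc [])
    (st [] (g a).enc (f a).enc.reverse) rfl (by simp)
  have h5 := mv_runs (i := 2) (j := 1) (by decide) (f a).enc.reverse
    (st [] (g a).enc (f a).enc.reverse) (st [] ((f a).enc ++ (g a).enc) []) rfl (by simp)
  have h6 := (Runs.push (st [] ((f a).enc ++ (g a).enc) []) 1 true).conv rfl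
    (s₁' := st [] (T.node (f a) (g a)).enc []) (by simp [T.enc]) le_rfl
  have h7 := mv_runs (i := 1) (j := 2) (by decide) (T.node (f a) (g a)).enc
    (st [] (T.node (f a) (g a)).enc []) (st [] [] (T.node (f a) (g a)).enc.reverse) rfl (by simp)
  have h8 := mv_runs (i := 2) (j := 0) (by decide) (T.node (f a) (g a)).enc.reverse
    (st [] [] (T.node (f a) (g a)).enc.reverse) (st (T.node (f a) (g a)).enc [] []) rfl (by simp)
  refine (h1.seq (h2.seq (h3.seq (h4.seq (h5.seq (h6.seq (h7.seq h8))))))).mono ?_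
  have e1 := hq a
  have e2 := hq' a
  simp only [T.enc, List.length_reverse, List.length_cons, List.length_append,
    Polynomial.eval_add, Polynomial.eval_mul, Polynomial.eval_C, Polynomial.eval_X]
  omega

theorem WC.iterate {tb : β → T} {n : α → T} {x : α → β} {f : β → β}
    (hn : WC ea T.enc w n) (hx : WC ea (fun b => (tb b).enc) w x)
    (hf : PC (fun b => (tb b).enc) (fun b => (tb b).enc) f)
    (q : Polynomial ℕ)
    (hq : ∀ a, ∀ k ≤ (n a).size, (tb (f^[k] (x a))).size ≤ q.eval ((ea a).length + w a)) :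
    WC ea (fun b => (tb b).enc) w (fun a => f^[(n a).size] (x a)) := by
  have hx' : WC ea T.enc w (fun a => tb (x a)) := hx
  obtain ⟨u', hu'⟩ := hn.length_le
  obtain ⟨d, r, hd⟩ := hn.node hx'
  obtain ⟨c, p, hf⟩ := hf
  refine ⟨Cmd.seq d (Cmd.seq split (Cmd.loop 1 (Cmd.seq (Cmd.pop 1) (ev c)))),
    r + (Polynomial.C 5 * u' + Polynomial.C 3) + ((p.comp q + Polynomial.C 2) * u' +
      Polynomial.C 1), fun a => ?_⟩
  have h1 := hd a
  rw [inp_eq_st, inp_eq_st] at h1
  rw [inp_eq_st, inp_eq_st]
  have h2 := split_runs (n a) (tb (x a))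
  have h3 := loop_runs hf (q.eval ((ea a).length + w a)) (n a).enc.reverse (x a) (by
    intro k hk
    exact hq a k (by simpa [T.size] using hk))
  refine (h1.seq (h2.seq h3)).conv rfl ?_ ?_
  · simp [T.size]
  · have e1 := hu' a
    simp only [List.length_reverse, Polynomial.eval_add, Polynomial.eval_mul, Polynomial.eval_C,
      Polynomial.eval_comp]
    have e2 : (n a).size = (n a).enc.length := rfl
    rw [e2]
    have e3 : (Polynomial.eval (Polynomial.eval ((ea a).length + w a) q) p + 2) *
      (n a).enc.length ≤ (Polynomial.eval (Polynomial.eval ((ea a).length + w a) q) p + 2) *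
        Polynomial.eval ((ea a).length + w a) u' := Nat.mul_le_mul_left _ e1
    omega

end

/-- Functions between encodable types computed in time polynomial in the size plus `w`. -/
def WT {α β : Type} [TEnc α] [TEnc β] (w : α → ℕ) (f : α → β) : Prop :=
  WC (bits : α → List Bool) (bits : β → List Bool) w f

section

variable {α β γ σ : Type} [TEnc α] [TEnc β] [TEnc γ] [TEnc σ] {w : α → ℕ}

theorem WT.of_poly {f : α → β} (h : Poly f) : WT w f := WC.of_PC h

theorem WT.comp {g : β → γ} {f : α → β} (hg : Poly g) (hf : WT w f) :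
    WT w (fun a => g (f a)) := WC.comp hg hf

theorem WT.pair {f : α → β} {g : α → γ} (hf : WT w f) (hg : WT w g) :
    WT w (fun a => (f a, g a)) := WC.node (f := fun a => toT (f a)) (g := fun a => toT (g a)) hf hg

theorem WT.sz_le {f : α → β} (hf : WT w f) :
    ∃ p : Polynomial ℕ, ∀ a, sz (f a) ≤ p.eval (sz a + w a) := WC.length_le hf

/-- Left folds. -/
theorem WT.foldl {c : α → γ} {l : α → List β} {s : α → σ} {F : γ → σ → β → σ}
    (hc : WT w c) (hl : WT w l) (hs : WT w s)
    (hF : Poly (fun p : γ × σ × β => F p.1 p.2.1 p.2.2)) (q : Polynomial ℕ)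
    (hq : ∀ a, ∀ k ≤ (l a).length,
      sz (((l a).take k).foldl (F (c a)) (s a)) ≤ q.eval (sz a + w a)) :
    WT w (fun a => (l a).foldl (F (c a)) (s a)) := by
  have hstep : Poly (Poly.foldStep F) := by
    have h1 : Poly (fun p : (γ × List β × σ) × β × List β =>
        ((p.1.1, p.2.2, F p.1.1 p.1.2.2 p.2.1) : γ × List β × σ)) := by
      refine Poly.pair (Poly.fst (Poly.fst Poly.id)) (Poly.pair (Poly.snd (Poly.snd Poly.id)) ?_)
      exact hF.comp (Poly.pair (Poly.fst (Poly.fst Poly.id))
        (Poly.pair (Poly.snd (Poly.snd (Poly.fst Poly.id))) (Poly.fst (Poly.snd Poly.id))))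
    refine (Poly.listCases (l := fun x : γ × List β × σ => x.2.1)
      (g := fun x => x) (h := fun x b t => (x.1, t, F x.1 x.2.2 b))
      (Poly.fst (Poly.snd Poly.id)) Poly.id h1).congr ?_
    rintro ⟨a, l, s⟩
    cases l <;> rfl
  obtain ⟨qc, hqc⟩ := hc.sz_le
  obtain ⟨ql, hql⟩ := hl.sz_le
  have h2 := WC.iterate (α := α) (ea := bits) (w := w) (β := γ × List β × σ) (tb := toT)
    (n := fun a => toT (l a)) (x := fun a => (c a, l a, s a)) (f := Poly.foldStep F)
    hl (hc.pair (hl.pair hs)) hstep (qc + ql + q + Polynomial.C 2) (by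
      intro a k _
      rw [Poly.foldStep_iterate]
      change sz (c a, (l a).drop k, ((l a).take k).foldl (F (c a)) (s a)) ≤ _
      have e1 := Poly.sz_drop_le (l a) k
      have e2 := hqc a
      have e2' := hql a
      have e3 : sz (((l a).take k).foldl (F (c a)) (s a)) ≤ q.eval (sz a + w a) := by
        by_cases hk : k ≤ (l a).length
        · exact hq a k hk
        · have := hq a _ le_rfl
          rw [List.take_of_length_le (by omega)]
          rwa [List.take_length] at this
      simp only [sz_pair, Polynomial.eval_add, Polynomial.eval_C]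
      change _ ≤ qc.eval (sz a + w a) + ql.eval (sz a + w a) + q.eval (sz a + w a) + 2
      omega)
  have h3 : WT w (fun a => (Poly.foldStep F)^[(toT (l a)).size] (c a, l a, s a)) := h2
  have h4 : WT w (fun a => ((Poly.foldStep F)^[(toT (l a)).size] (c a, l a, s a)).2.2) :=
    WT.comp (g := fun x : γ × List β × σ => x.2.2) (Poly.snd (Poly.snd Poly.id)) h3
  have h5 : (fun a => ((Poly.foldStep F)^[(toT (l a)).size] (c a, l a, s a)).2.2) =
      fun a => (l a).foldl (F (c a)) (s a) := by
    funext a
    rw [Poly.foldStep_iterate]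
    have : (l a).length < (toT (l a)).size := length_lt_sz (l a)
    rw [List.take_of_length_le (by omega)]
  rwa [h5] at h4

open Pool.Agent.NPC.H633 in
/-- The list of `2 ^ k` units. -/
theorem WT.pad {k : α → ℕ} (hk : UPoly k) (hw : ∀ a, 2 ^ k a ≤ w a) :
    WT w (fun a => List.replicate (2 ^ k a) ()) := by
  have h := WT.foldl (α := α) (w := w) (c := fun _ => ())
    (l := fun a => List.replicate (k a) ()) (s := fun _ => [()])
    (F := fun _ acc _ => acc ++ acc)
    (WT.of_poly (Pool.Agent.NPC.Poly.const ())) (WT.of_poly hk)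
    (WT.of_poly (Pool.Agent.NPC.Poly.const _))
    (Poly.append (Poly.fst (Poly.snd Poly.id)) (Poly.fst (Poly.snd Poly.id)))
    (Polynomial.C 2 * Polynomial.X + 1)
    (by
      intro a j hj
      rw [List.length_replicate] at hj
      have h1 := fold_exp 1 ((List.replicate (k a) ()).take j)
      rw [show List.replicate 1 () = [()] from rfl] at h1
      rw [h1, sz_replicate_unit, List.length_take, List.length_replicate]
      have h2 : 2 ^ min j (k a) ≤ 2 ^ k a := Nat.pow_le_pow_right (by omega) (Nat.min_le_right _ _)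
      have := hw a
      simp only [Polynomial.eval_add, Polynomial.eval_mul, Polynomial.eval_C, Polynomial.eval_X,
        Polynomial.eval_one]
      omega)
  have e : (fun a => (List.replicate (k a) ()).foldl
      (fun (acc : List Unit) (_ : Unit) => acc ++ acc) [()]) =
      fun a => List.replicate (2 ^ k a) () := by
    funext n
    have h1 := fold_exp 1 (List.replicate (k n) ())
    rw [show List.replicate 1 () = [()] from rfl] at h1
    rw [h1, List.length_replicate, mul_one]
  exact e ▸ h

/-- From programs to machines. -/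
theorem WT.toTm {f : α → β} (h : WT w f) : ∃ (M : TM2ComputableAux Bool Bool) (p : Polynomial ℕ),
    ∀ a, TmRuns M (bits a) (bits (f a)) (p.eval ((bits a).length + w a)) := by
  obtain ⟨c, p, hc⟩ := h
  obtain ⟨M, hM⟩ := Pool.Agent.H633R2.toTm c _ hc
  refine ⟨M, p + 1, fun a => ?_⟩
  obtain ⟨h1⟩ := hM a
  refine ⟨outputs_conv rfl rfl ?_ h1⟩
  simp

/-- Time `poly (size + h (κ a))` is fpt time. -/
theorem WT.fpt {f : α → β} {κ : α → ℕ} {h : ℕ → ℕ} (hh : Computable h)
    (hf : WT (fun a => h (κ a)) f) : FptTime κ f := by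
  rw [fptTime_iff]
  obtain ⟨c, p, hc⟩ := hf
  refine ⟨c, fun n => (h n + 1) ^ p.natDegree, p.comp (Polynomial.X + 1),
    pow_computable (add_computable hh (Computable.const 1)) _, fun a => (hc a).mono ?_⟩
  simp only [Polynomial.eval_comp, Polynomial.eval_add, Polynomial.eval_X, Polynomial.eval_one]
  refine le_trans (eval_mono p ?_) (eval_mul_le p (x := h (κ a) + 1) (y := (bits a).length + 1)
    (Nat.le_add_left _ _))
  nlinarith [Nat.zero_le (h (κ a) * (bits a).length)]

end

end Pool.Agent.W986.TimeC
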