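import Pool.Agent.W986.BF.Sys
import Pool.Agent.W986.BF.TimeC

/-!
# Hardness of computing the bounded faces: the reduction as an algorithm
-/

namespace Pool.Agent.W986.BF

open Turing Pool.Agent.NPC Pool.Agent.H633R2 Pool.Agent.W986.TimeC

/-- Adjacency in the graph of a matrix. -/
def adjB (M : List (List Bool)) (a b : ℕ) : Bool :=
  !(decide (a = b)) && (entry M a b || entry M b a)

theorem hasClique_iff (M : List (List Bool)) (k : ℕ) :
    HasClique (M, k) ↔ Cliq M.length k (adjB M) := by
  classical
  constructor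
  · rintro ⟨S, hS⟩
    have hc : S.card = k := hS.card_eq
    refine ⟨fun i => if h : i < k then (S.orderEmbOfFin hc ⟨i, h⟩ : ℕ) else 0,
      fun i hi => ?_, fun j hj i hi => ?_⟩
    · simp only [hi, dif_pos]
      exact (S.orderEmbOfFin hc ⟨i, hi⟩).2
    · simp only [hi.trans hj, hj, dif_pos]
      have hne : S.orderEmbOfFin hc ⟨i, hi.trans hj⟩ ≠ S.orderEmbOfFin hc ⟨j, hj⟩ := by
        intro h
        have := (S.orderEmbOfFin hc).injective h
        rw [Fin.mk.injEq] at this
        omega
      have h1 := hS.isClique (Finset.mem_coe.2 (S.orderEmbOfFin_mem hc ⟨i, hi.trans hj⟩))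
        (Finset.mem_coe.2 (S.orderEmbOfFin_mem hc ⟨j, hj⟩)) hne
      have h2 : (S.orderEmbOfFin hc ⟨i, hi.trans hj⟩ : ℕ) ≠ S.orderEmbOfFin hc ⟨j, hj⟩ :=
        fun h => hne (Fin.ext h)
      have h3 := h1.2
      simp only [adjB, h2, decide_false, Bool.not_false, Bool.true_and, Bool.or_eq_true]
      exact h3
  · rintro ⟨a, ha, hadj⟩
    have hadj' : ∀ i j : Fin k, i ≠ j → (graphOf M).Adj ⟨a i, ha i i.2⟩ ⟨a j, ha j j.2⟩ := by
      have key : ∀ i j : Fin k, i < j → (graphOf M).Adj ⟨a i, ha i i.2⟩ ⟨a j, ha j j.2⟩ := by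
        intro i j hij
        have h := hadj j j.2 i hij
        simp only [adjB, Bool.and_eq_true, Bool.not_eq_true', decide_eq_false_iff_not,
          Bool.or_eq_true] at h
        exact ⟨fun e => h.1 (Fin.mk.inj e), h.2⟩
      intro i j hij
      rcases lt_or_gt_of_ne hij with h | h
      · exact key i j h
      · exact (key j i h).symm
    refine ⟨Finset.univ.image (fun i : Fin k => (⟨a i, ha i i.2⟩ : Fin M.length)), ?_, ?_⟩
    · intro u hu v hv huv
      rw [Finset.mem_coe, Finset.mem_image] at hu hv
      obtain ⟨i, -, rfl⟩ := hu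
      obtain ⟨j, -, rfl⟩ := hv
      exact hadj' i j (by rintro rfl; exact huv rfl)
    · rw [Finset.card_image_of_injective, Finset.card_univ, Fintype.card_fin]
      intro i j hij
      by_contra hne
      exact (hadj' i j hne).ne hij

/-- The instance is a proper one. -/
def good (x : List (List Bool) × ℕ) : Bool := decide (1 ≤ x.2) && decide (x.2 ≤ x.1.length)

/-- The number of vertices used. -/
def nn (x : List (List Bool) × ℕ) : ℕ := bif good x then x.1.length else 1

/-- The parameter used. -/
def kk (x : List (List Bool) × ℕ) : ℕ := bif good x then x.2 else 1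

/-- The reduction. -/
def SS (x : List (List Bool) × ℕ) : LinSys := sysOf (nn x) (kk x) (adjB x.1)

theorem nn_pos (x) : 0 < nn x := by
  unfold nn
  cases h : good x
  · simp
  · simp only [good, Bool.and_eq_true, decide_eq_true_eq] at h
    simp only [cond_true]; omega

theorem kk_pos (x) : 0 < kk x := by
  unfold kk
  cases h : good x
  · simp
  · simp only [good, Bool.and_eq_true, decide_eq_true_eq] at h
    simp only [cond_true]; omega

theorem instance_SS (x) : Instance (SS x) := instance_sysOf (nn_pos x) (kk_pos x)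

section Poly

variable {α β : Type} [TEnc α] [TEnc β]

theorem poly_entry' {M : α → List (List Bool)} {i j : α → ℕ} (hM : Poly M) (hi : Poly i)
    (hj : Poly j) : Poly (fun a => entry (M a) (i a) (j a)) :=
  NPC.Poly.getD (NPC.Poly.getD hM hi (NPC.Poly.const [])) hj (NPC.Poly.const false)

theorem poly_adjB {M : α → List (List Bool)} {i j : α → ℕ} (hM : Poly M) (hi : Poly i)
    (hj : Poly j) : Poly (fun a => adjB (M a) (i a) (j a)) :=
  NPC.Poly.and (NPC.Poly.not (NPC.Poly.decide_eq hi hj))
    (NPC.Poly.or (poly_entry' hM hi hj) (poly_entry' hM hj hi))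

theorem poly_cf (c1 c2 c3 c4 : ℚ) {b1 b2 b3 b4 : α → Bool} (h1 : Poly b1) (h2 : Poly b2)
    (h3 : Poly b3) (h4 : Poly b4) : Poly (fun a => cf c1 c2 c3 c4 (b1 a) (b2 a) (b3 a) (b4 a)) := by
  have key : ∀ (G : Bool → Bool → Bool → Bool → ℚ),
      Poly (fun a => G (b1 a) (b2 a) (b3 a) (b4 a)) := by
    intro G
    have k4 : ∀ x y z, Poly (fun a => G x y z (b4 a)) := fun x y z =>
      (NPC.Poly.cond h4 (NPC.Poly.const (G x y z true)) (NPC.Poly.const (G x y z false))).congr fun a => by
        cases b4 a <;> rfl
    have k3 : ∀ x y, Poly (fun a => G x y (b3 a) (b4 a)) := fun x y =>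
      (NPC.Poly.cond h3 (k4 x y true) (k4 x y false)).congr fun a => by
        cases b3 a <;> rfl
    have k2 : ∀ x, Poly (fun a => G x (b2 a) (b3 a) (b4 a)) := fun x =>
      (NPC.Poly.cond h2 (k3 x true) (k3 x false)).congr fun a => by
        cases b2 a <;> rfl
    exact (NPC.Poly.cond h1 (k2 true) (k2 false)).congr fun a => by
        cases b1 a <;> rfl
  exact key (cf c1 c2 c3 c4)

theorem poly_row (c1 c2 c3 c4 b : ℚ) {kn d p q r : α → ℕ} (hkn : Poly kn) (hd : UPoly d)
    (hp : Poly p) (hq : Poly q) (hr : Poly r) :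
    Poly (fun a => row c1 c2 c3 c4 b (kn a) (d a) (p a) (q a) (r a)) := by
  refine NPC.Poly.pair (NPC.Poly.map (F := fun a t => cf c1 c2 c3 c4 (decide (t = p a))
    (decide (t = q a)) (decide (t = r a)) (decide (kn a ≤ t))) hd.range ?_) (NPC.Poly.const b)
  have h1 : Poly (fun p : α × ℕ => p.1) := NPC.Poly.fst NPC.Poly.id
  have h2 : Poly (fun p : α × ℕ => p.2) := NPC.Poly.snd NPC.Poly.id
  exact poly_cf _ _ _ _ (NPC.Poly.decide_eq h2 (hp.comp h1)) (NPC.Poly.decide_eq h2 (hq.comp h1))
    (NPC.Poly.decide_eq h2 (hr.comp h1)) (NPC.Poly.decide_le (hkn.comp h1) h2)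

theorem poly_sysOf {n k : α → ℕ} {M : α → List (List Bool)} (hn : UPoly n) (hk : UPoly k)
    (hM : Poly M) : Poly (fun a => sysOf (n a) (k a) (adjB (M a))) := by
  have hkn : UPoly (fun a => k a * n a) := UPoly.mul hk hn
  have hd : UPoly (fun a => k a * n a + k a) := UPoly.add hkn hk
  refine NPC.Poly.pair hd.toPoly (NPC.Poly.append ?_ ?_)
  · refine NPC.Poly.flatMap (F := fun a i => (List.range (n a)).flatMap
      (fun b => rows1 (n a) (k a) i b)) hk.range ?_
    have h1 : Poly (fun p : α × ℕ => p.1) := NPC.Poly.fst NPC.Poly.id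
    refine NPC.Poly.flatMap (F := fun (p : α × ℕ) b => rows1 (n p.1) (k p.1) p.2 b)
      (hn.comp h1).range ?_
    have g1 : Poly (fun p : (α × ℕ) × ℕ => p.1.1) := NPC.Poly.fst (NPC.Poly.fst NPC.Poly.id)
    have g2 : Poly (fun p : (α × ℕ) × ℕ => p.1.2) := NPC.Poly.snd (NPC.Poly.fst NPC.Poly.id)
    have g3 : Poly (fun p : (α × ℕ) × ℕ => p.2) := NPC.Poly.snd NPC.Poly.id
    have hp : Poly (fun p : (α × ℕ) × ℕ => p.1.2 * n p.1.1 + p.2) :=
      NPC.Poly.add (NPC.Poly.mul g2 (hn.toPoly.comp g1)) g3
    have hr : Poly (fun p : (α × ℕ) × ℕ => k p.1.1 * n p.1.1 + p.1.2) :=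
      NPC.Poly.add (hkn.toPoly.comp g1) g2
    unfold rows1
    refine NPC.Poly.cons (poly_row _ _ _ _ _ (hkn.toPoly.comp g1) (hd.comp g1) hp (NPC.Poly.const 0)
      (NPC.Poly.const 0)) (NPC.Poly.cons (poly_row _ _ _ _ _ (hkn.toPoly.comp g1) (hd.comp g1) hp
        (NPC.Poly.const 0) (NPC.Poly.const 0)) (NPC.Poly.cons (poly_row _ _ _ _ _ (hkn.toPoly.comp g1)
          (hd.comp g1) hp (NPC.Poly.const 0) hr) (NPC.Poly.const [])))
  · have f1 : Poly (fun p : α × ℕ => p.1) := NPC.Poly.fst NPC.Poly.id
    have g1 : Poly (fun p : (α × ℕ) × ℕ => p.1.1) := NPC.Poly.fst (NPC.Poly.fst NPC.Poly.id)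
    have h1 : Poly (fun p : ((α × ℕ) × ℕ) × ℕ => p.1.1.1) := g1.comp (NPC.Poly.fst NPC.Poly.id)
    have i1 : Poly (fun p : (((α × ℕ) × ℕ) × ℕ) × ℕ => p.1.1.1.1) :=
      h1.comp (NPC.Poly.fst NPC.Poly.id)
    have i2 : Poly (fun p : (((α × ℕ) × ℕ) × ℕ) × ℕ => p.1.1.1.2) :=
      NPC.Poly.snd (NPC.Poly.fst (NPC.Poly.fst (NPC.Poly.fst NPC.Poly.id)))
    have i3 : Poly (fun p : (((α × ℕ) × ℕ) × ℕ) × ℕ => p.1.1.2) :=
      NPC.Poly.snd (NPC.Poly.fst (NPC.Poly.fst NPC.Poly.id))
    have i4 : Poly (fun p : (((α × ℕ) × ℕ) × ℕ) × ℕ => p.1.2) :=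
      NPC.Poly.snd (NPC.Poly.fst NPC.Poly.id)
    have i5 : Poly (fun p : (((α × ℕ) × ℕ) × ℕ) × ℕ => p.2) := NPC.Poly.snd NPC.Poly.id
    refine NPC.Poly.flatMap (F := fun a j => (List.range (k a)).flatMap (fun i =>
      (List.range (n a)).flatMap (fun b => (List.range (n a)).flatMap (fun c =>
        bif decide (i < j) then rows2 (n a) (k a) (adjB (M a)) j i b c else [])))) hk.range ?_
    refine NPC.Poly.flatMap (F := fun (p : α × ℕ) i =>
      (List.range (n p.1)).flatMap (fun b => (List.range (n p.1)).flatMap (fun c =>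
        bif decide (i < p.2) then rows2 (n p.1) (k p.1) (adjB (M p.1)) p.2 i b c else [])))
        (hk.comp f1).range ?_
    refine NPC.Poly.flatMap (F := fun (p : (α × ℕ) × ℕ) b =>
      (List.range (n p.1.1)).flatMap (fun c =>
        bif decide (p.2 < p.1.2) then
          rows2 (n p.1.1) (k p.1.1) (adjB (M p.1.1)) p.1.2 p.2 b c else []))
        (hn.comp g1).range ?_
    refine NPC.Poly.flatMap (F := fun (p : ((α × ℕ) × ℕ) × ℕ) c =>
        bif decide (p.1.2 < p.1.1.2) then
          rows2 (n p.1.1.1) (k p.1.1.1) (adjB (M p.1.1.1)) p.1.1.2 p.1.2 p.2 c else [])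
        (hn.comp h1).range ?_
    refine NPC.Poly.cond (NPC.Poly.decide_lt i3 i2) ?_ (NPC.Poly.const [])
    unfold rows2
    refine NPC.Poly.cond (poly_adjB (hM.comp i1) i4 i5) (NPC.Poly.const []) ?_
    refine NPC.Poly.cons (poly_row _ _ _ _ _ (hkn.toPoly.comp i1) (hd.comp i1)
      (NPC.Poly.add (NPC.Poly.mul i3 (hn.toPoly.comp i1)) i4)
      (NPC.Poly.add (NPC.Poly.mul i2 (hn.toPoly.comp i1)) i5) (NPC.Poly.const 0))
      (NPC.Poly.const [])

/-- The bits of the code of an instance can be listed in polynomial time. -/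
theorem poly_bits : Poly (fun a : α => bits a) := by
  have h : PC (bits : α → List Bool) (fun x : List Bool => x) (fun a : α => bits a) :=
    ⟨Cmd.skip, 1, fun a => (Runs.skip _).mono (by simp)⟩
  exact PC.comp (α := α) (β := List Bool) (γ := List Bool) (ea := bits)
    (eb := fun x : List Bool => x) (ec := bits) (f := fun a : α => bits a)
    (g := fun x : List Bool => x) PC.rawIn h

theorem upoly_size : UPoly (fun a : α => (bits a).length) := UPoly.length poly_bits

theorem poly_good : Poly good :=
  NPC.Poly.and (NPC.Poly.decide_le (NPC.Poly.const 1) (NPC.Poly.snd NPC.Poly.id))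
    (NPC.Poly.decide_le (NPC.Poly.snd NPC.Poly.id) (NPC.Poly.length (NPC.Poly.fst NPC.Poly.id)))

theorem upoly_len1 : UPoly (fun x : List (List Bool) × ℕ => x.1.length + 1) :=
  UPoly.add (UPoly.length (NPC.Poly.fst NPC.Poly.id)) (UPoly.const 1)

theorem upoly_nn : UPoly nn := by
  refine UPoly.of_le (NPC.Poly.cond poly_good (NPC.Poly.length (NPC.Poly.fst NPC.Poly.id))
    (NPC.Poly.const 1)) upoly_len1 fun x => ?_
  show nn x ≤ _
  unfold nn
  cases good x
  · simp
  · simp

theorem upoly_kk : UPoly kk := by
  refine UPoly.of_le (NPC.Poly.cond poly_good (NPC.Poly.snd NPC.Poly.id)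
    (NPC.Poly.const 1)) upoly_len1 fun x => ?_
  show kk x ≤ _
  unfold kk
  cases h : good x
  · simp
  · simp only [good, Bool.and_eq_true, decide_eq_true_eq] at h
    simp only [cond_true]; omega

theorem poly_SS : Poly SS := poly_sysOf upoly_nn upoly_kk (NPC.Poly.fst NPC.Poly.id)

end Poly

/-! ### The size of the output when there is no clique -/

theorem sz_nat_le' (j m : ℕ) (h : j ≤ m) : sz j ≤ 4 * m + 1 := by
  have h1 := sz_nat_le j
  have h2 := NPC.Poly.size_le_self j
  omega

theorem sz_H {n k : ℕ} {adj : ℕ → ℕ → Bool} {H : List (List ℕ) × List (ℕ × ℕ)}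
    (hH : IsHasse (sysOf n k adj) H) (hl : H.1.length = 2 ^ k - 1) (y : ℕ)
    (hy : (sysOf n k adj).2.length + 2 ^ k ≤ y) :
    sz H ≤ y * (y * (4 * y + 2) + 2) + y * y * (8 * y + 4) + 3 := by
  classical
  have hk1 := Nat.one_le_two_pow (n := k)
  have h1 : sz H.1 ≤ y * (y * (4 * y + 2) + 2) + 1 := by
    have h2 := sz_le_length_mul H.1 (y * (4 * y + 2) + 1) (by
      intro t ht
      obtain ⟨F, hF, rfl⟩ := (hH.2.1 t).1 ht
      have h3 := sz_le_length_mul (tight (sysOf n k adj) F) (4 * y + 1) (by
        intro j hj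
        have hj' : j < (sysOf n k adj).2.length := by
          unfold tight at hj
          exact List.mem_range.1 (List.mem_filter.1 hj).1
        exact sz_nat_le' j y (by omega))
      have h4 : (tight (sysOf n k adj) F).length ≤ y := by
        unfold tight
        refine (List.length_filter_le _ _).trans ?_
        rw [List.length_range]; omega
      have h3' : sz (tight (sysOf n k adj) F) ≤
        (tight (sysOf n k adj) F).length * (4 * y + 2) + 1 := h3
      have := Nat.mul_le_mul_right (4 * y + 2) h4
      omega)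
    have h2' : sz H.1 ≤ H.1.length * (y * (4 * y + 2) + 2) + 1 := h2
    have h5 : H.1.length ≤ y := by omega
    have := Nat.mul_le_mul_right (y * (4 * y + 2) + 2) h5
    omega
  have h6 : sz H.2 ≤ y * y * (8 * y + 4) + 1 := by
    have hmem : ∀ p ∈ H.2, p.1 < H.1.length ∧ p.2 < H.1.length := by
      rintro ⟨i, j⟩ hp
      obtain ⟨F, hF, G, hG, h7, h8, -⟩ := (hH.2.2.2 i j).1 hp
      exact ⟨(List.getElem?_eq_some_iff.1 h7).1, (List.getElem?_eq_some_iff.1 h8).1⟩
    have h7 := sz_le_length_mul H.2 (8 * y + 3) (by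
      rintro ⟨i, j⟩ hp
      have h8 := hmem _ hp
      rw [sz_pair]
      have h9 := sz_nat_le' i y (by simp only at h8; omega)
      have h10 := sz_nat_le' j y (by simp only at h8; omega)
      omega)
    have h11 : H.2.length ≤ y * y := by
      rw [← List.toFinset_card_of_nodup hH.2.2.1]
      have h12 : H.2.toFinset ⊆ Finset.range y ×ˢ Finset.range y := by
        intro p hp
        have := hmem p (List.mem_toFinset.1 hp)
        rw [Finset.mem_product, Finset.mem_range, Finset.mem_range]
        omega
      have := Finset.card_le_card h12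
      rwa [Finset.card_product, Finset.card_range] at this
    have h7' : sz H.2 ≤ H.2.length * (8 * y + 4) + 1 := h7
    have := Nat.mul_le_mul_right (8 * y + 4) h11
    omega
  obtain ⟨V, E⟩ := H
  rw [sz_pair]
  simp only at h1 h6
  omega

theorem length_le_sz {α : Type} [TEnc α] (l : List α) : l.length ≤ sz l := (length_lt_sz l).le

/-- **Main theorem.** If the Hasse diagram of the bounded faces can be computed in polynomial
total time, then clique can be decided in time polynomial in the size of the graph and `2 ^ k`. -/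
theorem clique_WT (h : PolyTotalTime) :
    ∃ d : List (List Bool) × ℕ → Bool, (∀ x, d x = true ↔ HasClique x) ∧
      WT (fun x : List (List Bool) × ℕ => 2 ^ x.2) d := by
  classical
  obtain ⟨M, p, hM⟩ := h
  choose H hH hrun using fun x : List (List Bool) × ℕ => hM (SS x) (instance_SS x)
  obtain ⟨prog, c, hprog⟩ := toCmd (ea := fun x => bits (SS x)) (eb := bits) (f := H) M _ hrun
  -- the amount of fuel
  set q : Polynomial ℕ := Polynomial.C c * (Polynomial.X + p.comp (Polynomial.X +
    (Polynomial.X * (Polynomial.X * (Polynomial.C 4 * Polynomial.X + Polynomial.C 2) +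
      Polynomial.C 2) + Polynomial.X * Polynomial.X * (Polynomial.C 8 * Polynomial.X +
        Polynomial.C 4) + Polynomial.C 3)) + 1) + 1 with hq
  set u : List (List Bool) × ℕ → List Unit := fun x =>
    List.replicate (q.eval ((bits (SS x)).length + 2 ^ kk x)) () with hu
  obtain ⟨g, hg1, hg2, hg3⟩ := Clock.clock SS H prog _ hprog u
  -- correctness of the simulation
  have hgood : ∀ x, ¬ Cliq (nn x) (kk x) (adjB x.1) → g x = some (H x) := by
    intro x hx
    refine hg2 x ?_
    have hl := length_noClique (nn_pos x) (kk_pos x) hx (hH x)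
    have hs := sz_H (hH x) hl ((bits (SS x)).length + 2 ^ kk x) (by
      have h1 := length_le_sz (SS x).2
      have h2 : sz (SS x).2 ≤ (bits (SS x)).length := by
        rw [bits_length]
        have : sz (SS x) = sz (SS x).1 + sz (SS x).2 + 1 := sz_pair _ _
        omega
      have h3 : (sysOf (nn x) (kk x) (adjB x.1)).2.length = (SS x).2.length := rfl
      omega)
    rw [hu, List.length_replicate]
    set y := (bits (SS x)).length + 2 ^ kk x with hy
    rw [hq]
    simp only [Polynomial.eval_add, Polynomial.eval_mul, Polynomial.eval_C, Polynomial.eval_X,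
      Polynomial.eval_one, Polynomial.eval_comp]
    have h4 : (bits (SS x)).length ≤ y := Nat.le_add_right _ _
    have h5 : (bits (SS x)).length + (bits (H x)).length ≤
        y + (y * (y * (4 * y + 2) + 2) + y * y * (8 * y + 4) + 3) := by
      rw [bits_length (H x)]
      exact Nat.add_le_add h4 hs
    have h6 := eval_mono p h5
    have h7 := Nat.mul_le_mul_left c (Nat.add_le_add_right (Nat.add_le_add h4 h6) 1)
    omega
  refine ⟨fun x => bif decide (x.2 = 0) then true else bif good x then
    (match g x with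
      | none => true
      | some V => !decide (V.1.length + 1 = (List.replicate (2 ^ kk x) ()).length)) else false,
    fun x => ?_, ?_⟩
  · obtain ⟨G, k⟩ := x
    rw [hasClique_iff]
    by_cases hk0 : k = 0
    · subst hk0
      simp only [decide_true, cond_true, true_iff]
      exact ⟨fun _ => 0, fun i hi => absurd hi (by omega), fun j hj => absurd hj (by omega)⟩
    · simp only [hk0, decide_false, cond_false]
      cases hgd : good (G, k)
      · simp only [cond_false, Bool.false_eq_true, false_iff]
        rintro ⟨a, ha, hadj⟩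
        have hlt : G.length < k := by
          by_contra hcon
          have : good (G, k) = true := by
            simp only [good, Bool.and_eq_true, decide_eq_true_eq]; omega
          rw [this] at hgd; cases hgd
        obtain ⟨i, hi, j, hj, hij, he⟩ : ∃ i ∈ Finset.range k, ∃ j ∈ Finset.range k,
            i ≠ j ∧ a i = a j := by
          refine Finset.exists_ne_map_eq_of_card_lt_of_maps_to (t := Finset.range G.length)
            (by simpa using hlt) fun i hi => ?_
          exact Finset.mem_coe.2 (Finset.mem_range.2 (ha i (Finset.mem_range.1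
            (Finset.mem_coe.1 hi))))
        rw [Finset.mem_range] at hi hj
        rcases lt_or_gt_of_ne hij with h | h
        · have := hadj j hj i h
          simp [adjB, he] at this
        · have := hadj i hi j h
          simp [adjB, he] at this
      · have e1 : nn (G, k) = G.length := by unfold nn; rw [hgd]; rfl
        have e2 : kk (G, k) = k := by unfold kk; rw [hgd]; rfl
        have hnp : 0 < G.length := e1 ▸ nn_pos (G, k)
        have hkp : 0 < k := by omega
        have hHx := hH (G, k)
        have hSS : SS (G, k) = sysOf G.length k (adjB G) := by unfold SS; rw [e1, e2]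
        rw [hSS] at hHx
        simp only [cond_true, e2, List.length_replicate]
        by_cases hcl : Cliq G.length k (adjB G)
        · have h1 := length_clique hnp hkp hcl hHx
          simp only [hcl, iff_true]
          rcases hg1 (G, k) with h2 | h2
          · rw [h2]
          · rw [h2]
            simp only [Bool.not_eq_true', decide_eq_false_iff_not]
            omega
        · have h1 := length_noClique hnp hkp hcl hHx
          have h2 := hgood (G, k) (by rw [e1, e2]; exact hcl)
          have h3 := Nat.one_le_two_pow (n := k)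
          simp only [hcl, iff_false, h2, Bool.not_eq_true', decide_eq_false_iff_not,
            not_not]
          omega
  · -- running time
    set w : List (List Bool) × ℕ → ℕ := fun x => 2 ^ x.2 + 2 with hw
    have hwT : ∀ {β : Type} [TEnc β] {f : List (List Bool) × ℕ → β}, WT w f →
        WT (fun x : List (List Bool) × ℕ => 2 ^ x.2) f := by
      intro β _ f hf
      obtain ⟨cc, pp, hc⟩ := hf
      refine ⟨cc, pp.comp (Polynomial.X + 2), fun a => (hc a).mono ?_⟩
      rw [Polynomial.eval_comp]
      refine eval_mono pp ?_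
      simp [hw, add_assoc]
    apply hwT
    have hpad : WT w (fun x => List.replicate (2 ^ kk x) ()) := by
      refine WT.pad upoly_kk fun x => ?_
      rw [hw]
      show 2 ^ kk x ≤ 2 ^ x.2 + 2
      unfold kk
      cases good x
      · simp
      · simp
    have h1 : WT w (fun x => (x, List.replicate (2 ^ kk x) ())) :=
      WT.pair (WT.of_poly NPC.Poly.id) hpad
    have h2 : WT w (fun x => (u x, SS x)) := by
      have h3 : Poly (fun z : (List (List Bool) × ℕ) × List Unit =>
          (List.replicate (q.eval ((bits (SS z.1)).length + z.2.length)) (), SS z.1)) := by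
        refine NPC.Poly.pair ?_ (poly_SS.comp (NPC.Poly.fst NPC.Poly.id))
        exact UPoly.eval (UPoly.add (UPoly.comp upoly_size
          (poly_SS.comp (NPC.Poly.fst NPC.Poly.id))) (UPoly.length (NPC.Poly.snd NPC.Poly.id))) q
      have h4 := WT.comp h3 h1
      simpa only [hu, List.length_replicate] using h4
    have h5 : WC (bits : List (List Bool) × ℕ → List Bool) (fun x => bits (u x, SS x)) w
        (fun x => x) := h2
    have h6 : WT w g := WC.comp hg3 h5
    have h7 : WT w (fun x => ((x, List.replicate (2 ^ kk x) ()), g x)) := WT.pair h1 h6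
    have h8 : Poly (fun z : ((List (List Bool) × ℕ) × List Unit) ×
        Option (List (List ℕ) × List (ℕ × ℕ)) =>
        bif decide (z.1.1.2 = 0) then true else bif good z.1.1 then
          (match z.2 with
            | none => true
            | some V => !decide (V.1.length + 1 = z.1.2.length)) else false) := by
      refine NPC.Poly.cond (NPC.Poly.decide_eq (NPC.Poly.snd (NPC.Poly.fst (NPC.Poly.fst
        NPC.Poly.id))) (NPC.Poly.const 0)) (NPC.Poly.const true) (NPC.Poly.cond
          (poly_good.comp (NPC.Poly.fst (NPC.Poly.fst NPC.Poly.id))) ?_ (NPC.Poly.const false))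
      refine (NPC.Poly.optCases (o := fun z : ((List (List Bool) × ℕ) × List Unit) ×
        Option (List (List ℕ) × List (ℕ × ℕ)) => z.2) (g := fun _ => true)
        (h := fun z V => !decide (V.1.length + 1 = z.1.2.length)) (NPC.Poly.snd NPC.Poly.id)
        (NPC.Poly.const true) ?_).congr (fun z => by rcases z.2 with _ | V <;> rfl)
      refine NPC.Poly.not (NPC.Poly.decide_eq (NPC.Poly.succ (NPC.Poly.length (NPC.Poly.fst
        (NPC.Poly.snd NPC.Poly.id)))) (NPC.Poly.length (NPC.Poly.snd (NPC.Poly.fst
          (NPC.Poly.fst NPC.Poly.id)))))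
    exact WT.comp h8 h7

end Pool.Agent.W986.BF
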