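import Pool.Agent.W986.BF.Defs
import Pool.Agent.W986.BF.Geo

/-!
# The system of inequalities of a graph and a number
-/

namespace Pool.Agent.W986.BF

open Turing Pool.Agent.NPC Pool.Agent.H633R2

/-- A coefficient. -/
def cf (α β γ g : ℚ) (b1 b2 b3 b4 : Bool) : ℚ :=
  (if b1 then α else 0) + (if b2 then β else 0) + (if b3 then γ else 0) + (if b4 then g else 0)

/-- An inequality. -/
def row (α β γ g b : ℚ) (kn d p q r : ℕ) : List ℚ × ℚ :=
  ((List.range d).map (fun t => cf α β γ g (decide (t = p)) (decide (t = q)) (decide (t = r))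
    (decide (kn ≤ t))), b)

theorem sum_ex {d : ℕ} (v : Fin d → ℝ) (c : ℝ) (p : ℕ) :
    ∑ t ∈ Finset.range d, (if t = p then c else 0) * ex v t = c * ex v p := by
  by_cases hp : p < d
  · rw [Finset.sum_eq_single p (fun t _ ht => by rw [if_neg ht, zero_mul])
      (fun h => absurd (Finset.mem_range.2 hp) h), if_pos rfl]
  · rw [Finset.sum_eq_zero fun t ht => by
      rw [if_neg (by rintro rfl; exact hp (Finset.mem_range.1 ht)), zero_mul]]
    unfold ex
    rw [dif_neg hp, mul_zero]

theorem lhs_row {n k : ℕ} (α β γ g b : ℚ) (p q r : ℕ) (v : Fin (k * n + k) → ℝ) :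
    lhs (row α β γ g b (k * n) (k * n + k) p q r) v =
      α * ex v p + β * ex v q + γ * ex v r + g * ∑ i ∈ Finset.range k, Z v i := by
  have h1 : lhs (row α β γ g b (k * n) (k * n + k) p q r) v =
      ∑ t ∈ Finset.range (k * n + k), ((cf α β γ g (decide (t = p)) (decide (t = q))
        (decide (t = r)) (decide (k * n ≤ t)) : ℚ) : ℝ) * ex v t := by
    rw [Finset.sum_range]
    unfold lhs row
    refine Finset.sum_congr rfl fun i _ => ?_
    congr 1
    · congr 1
      rw [List.getD_eq_getElem?_getD, List.getElem?_map, List.getElem?_range i.2]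
      rfl
    · unfold ex; rw [dif_pos i.2]
  rw [h1]
  have h2 : ∀ t ∈ Finset.range (k * n + k), ((cf α β γ g (decide (t = p)) (decide (t = q))
        (decide (t = r)) (decide (k * n ≤ t)) : ℚ) : ℝ) * ex v t =
      (if t = p then (α : ℝ) else 0) * ex v t + (if t = q then (β : ℝ) else 0) * ex v t +
        (if t = r then (γ : ℝ) else 0) * ex v t + (if k * n ≤ t then (g : ℝ) else 0) * ex v t := by
    intro t _
    have hc : ∀ (P : Prop) [Decidable P] (x : ℚ), (((if P then x else 0 : ℚ)) : ℝ) =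
        if P then (x : ℝ) else 0 := by
      intro P _ x; split <;> simp
    unfold cf
    simp only [decide_eq_true_eq]
    push_cast
    rw [hc, hc, hc, hc]
    ring
  rw [Finset.sum_congr rfl h2, Finset.sum_add_distrib, Finset.sum_add_distrib,
    Finset.sum_add_distrib, sum_ex, sum_ex, sum_ex]
  congr 1
  rw [Finset.sum_range_add, Finset.mul_sum]
  rw [Finset.sum_eq_zero fun t ht => by
    rw [if_neg (by rw [Finset.mem_range] at ht; omega), zero_mul], zero_add]
  refine Finset.sum_congr rfl fun i _ => ?_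
  rw [if_pos (by omega)]
  rfl

/-- The list of inequalities for the variables with indices `i`, `a`. -/
def rows1 (n k i a : ℕ) : List (List ℚ × ℚ) :=
  [row (-1) 0 0 0 0 (k * n) (k * n + k) (i * n + a) 0 0,
    row 1 0 0 2 1 (k * n) (k * n + k) (i * n + a) 0 0,
    row 1 0 (-1) 2 1 (k * n) (k * n + k) (i * n + a) 0 (k * n + i)]

/-- The inequality for a pair that is not adjacent. -/
def rows2 (n k : ℕ) (adj : ℕ → ℕ → Bool) (j i a b : ℕ) : List (List ℚ × ℚ) :=
  bif adj a b then [] else [row 1 1 0 2 1 (k * n) (k * n + k) (i * n + a) (j * n + b) 0]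

/-- The system of inequalities. -/
def sysOf (n k : ℕ) (adj : ℕ → ℕ → Bool) : LinSys :=
  (k * n + k,
    (List.range k).flatMap (fun i => (List.range n).flatMap (fun a => rows1 n k i a)) ++
    (List.range k).flatMap (fun j => (List.range k).flatMap (fun i =>
      (List.range n).flatMap (fun a => (List.range n).flatMap (fun b =>
        bif decide (i < j) then rows2 n k adj j i a b else [])))))

variable {n k : ℕ} {adj : ℕ → ℕ → Bool}

theorem mem_sysOf (r : List ℚ × ℚ) : r ∈ (sysOf n k adj).2 ↔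
    (∃ i < k, ∃ a < n, r ∈ rows1 n k i a) ∨
    ∃ j < k, ∃ i < j, ∃ a < n, ∃ b < n, r ∈ rows2 n k adj j i a b := by
  unfold sysOf
  simp only [List.mem_append, List.mem_flatMap, List.mem_range]
  refine or_congr Iff.rfl ⟨?_, ?_⟩
  · rintro ⟨j, hj, i, hi, a, ha, b, hb, hr⟩
    by_cases hij : i < j
    · exact ⟨j, hj, i, hij, a, ha, b, hb, by simpa [hij] using hr⟩
    · simp [hij] at hr
  · rintro ⟨j, hj, i, hi, a, ha, b, hb, hr⟩
    exact ⟨j, hj, i, hi.trans hj, a, ha, b, hb, by simpa [hi] using hr⟩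

theorem polyhedron_sysOf : polyhedron (sysOf n k adj) = PP (n := n) (k := k) adj := by
  refine Set.ext fun (v : Fin (k * n + k) → ℝ) => ?_
  change (∀ r ∈ (sysOf n k adj).2, lhs r v ≤ ((r.2 : ℚ) : ℝ)) ↔ v ∈ PP (n := n) (k := k) adj
  constructor
  · intro h
    refine ⟨fun i hi a ha => ?_, fun j hj i hi a ha b hb hab => ?_⟩
    · have h0 : ∀ r ∈ rows1 n k i a, lhs r v ≤ ((r.2 : ℚ) : ℝ) := fun r hr =>
        h r ((mem_sysOf r).2 (Or.inl ⟨i, hi, a, ha, hr⟩))
      unfold rows1 at h0
      have h1 := h0 (row (-1) 0 0 0 0 (k * n) (k * n + k) (i * n + a) 0 0) (by simp)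
      have h2 := h0 (row 1 0 0 2 1 (k * n) (k * n + k) (i * n + a) 0 0) (by simp)
      have h3 := h0 (row 1 0 (-1) 2 1 (k * n) (k * n + k) (i * n + a) 0 (k * n + i)) (by simp)
      rw [lhs_row] at h1 h2 h3
      simp only [row] at h1 h2 h3
      push_cast at h1 h2 h3
      unfold tau X Z
      unfold Z at h1 h2 h3
      refine ⟨by linarith, by linarith, by linarith⟩
    · have h1 := h (row 1 1 0 2 1 (k * n) (k * n + k) (i * n + a) (j * n + b) 0)
        ((mem_sysOf _).2 (Or.inr ⟨j, hj, i, hi, a, ha, b, hb, by unfold rows2; rw [hab]; simp⟩))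
      rw [lhs_row] at h1
      simp only [row] at h1
      push_cast at h1
      unfold tau X Z
      unfold Z at h1
      linarith
  · rintro ⟨h1, h2⟩ r hr
    rcases (mem_sysOf r).1 hr with ⟨i, hi, a, ha, hr⟩ | ⟨j, hj, i, hi, a, ha, b, hb, hr⟩
    · obtain ⟨e1, e2, e3⟩ := h1 i hi a ha
      unfold X at e1
      unfold tau X at e2
      unfold tau X Z at e3
      unfold Z at e2
      unfold rows1 at hr
      simp only [List.mem_cons, List.not_mem_nil, or_false] at hr
      rcases hr with rfl | rfl | rfl <;>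
      · rw [lhs_row]
        simp only [row]
        push_cast
        unfold Z
        linarith
    · unfold rows2 at hr
      cases hab : adj a b
      · rw [hab] at hr
        simp only [cond_false, List.mem_singleton] at hr
        have e1 := h2 j hj i hi a ha b hb hab
        unfold tau X Z at e1
        subst hr
        rw [lhs_row]
        simp only [row]
        push_cast
        unfold Z
        linarith
      · rw [hab] at hr
        simp at hr

theorem instance_sysOf (hn : 0 < n) (hk : 0 < k) : Instance (sysOf n k adj) := by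
  refine ⟨fun r hr => ?_, ?_, ?_⟩
  · rcases (mem_sysOf r).1 hr with ⟨i, hi, a, ha, hr⟩ | ⟨j, hj, i, hi, a, ha, b, hb, hr⟩
    · unfold rows1 at hr
      simp only [List.mem_cons, List.not_mem_nil, or_false] at hr
      rcases hr with rfl | rfl | rfl <;> simp [row, sysOf]
    · unfold rows2 at hr
      cases hab : adj a b
      · rw [hab] at hr
        simp only [cond_false, List.mem_singleton] at hr
        subst hr
        simp [row, sysOf]
      · rw [hab] at hr
        simp at hr
  · rw [polyhedron_sysOf]; exact pointed adj hn hk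
  · rw [polyhedron_sysOf]; exact unbounded adj hk

/-- The tight inequalities of a face are determined by the list. -/
theorem tight_eq0 {S : LinSys} {F G : Set (Fin S.1 → ℝ)} (h : tight S F = tight S G)
    {r : List ℚ × ℚ} (hr : r ∈ S.2) :
    (∀ x ∈ F, lhs r x = ((r.2 : ℚ) : ℝ)) ↔ ∀ x ∈ G, lhs r x = ((r.2 : ℚ) : ℝ) := by
  classical
  obtain ⟨j, hj, rfl⟩ := List.mem_iff_getElem.1 hr
  have key : ∀ F : Set (Fin S.1 → ℝ), j ∈ tight S F ↔
      ∀ x ∈ F, lhs S.2[j] x = ((S.2[j].2 : ℚ) : ℝ) := by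
    intro F
    simp only [tight, List.mem_filter, List.mem_range, decide_eq_true_eq]
    have e : S.2.getD j ([], 0) = S.2[j] := by
      rw [List.getD_eq_getElem?_getD, List.getElem?_eq_getElem hj]; rfl
    rw [e]
    exact ⟨fun h => h.2, fun h => ⟨hj, h⟩⟩
  rw [← key F, ← key G, h]

theorem tight_eq {F G : Set (Fin (k * n + k) → ℝ)}
    (h : tight (sysOf n k adj) F = tight (sysOf n k adj) G)
    {r : List ℚ × ℚ} (hr : r ∈ (sysOf n k adj).2) :
    (∀ x ∈ F, lhs r x = ((r.2 : ℚ) : ℝ)) ↔ ∀ x ∈ G, lhs r x = ((r.2 : ℚ) : ℝ) := tight_eq0 h hr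

theorem FF_mem (hn : 0 < n) (hk : 0 < k) {A : Finset ℕ} (hA : A ⊆ Finset.range k)
    (hA' : A.Nonempty) : FF (n := n) (k := k) A ∈ boundedFaces (sysOf n k adj) := by
  refine ⟨?_, ?_, FF_bounded A⟩
  · obtain ⟨i, hi⟩ := hA'
    exact ⟨vt n k i, (vt_mem_FF (Finset.mem_range.1 (hA hi))).2 hi⟩
  · rw [polyhedron_sysOf]; exact FF_exposed adj hn hk A

theorem row3_tight {A : Finset ℕ} (hn : 0 < n) {i : ℕ} (hi : i < k) :
    (∀ x ∈ FF (n := n) (k := k) A,
      lhs (row 1 0 (-1) 2 1 (k * n) (k * n + k) (i * n + 0) 0 (k * n + i)) x =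
      (((row 1 0 (-1) 2 1 (k * n) (k * n + k) (i * n + 0) 0 (k * n + i)).2 : ℚ) : ℝ)) ↔
      i ∉ A := by
  constructor
  · intro h hiA
    have h1 := h (vt n k i) ((vt_mem_FF hi).2 hiA)
    rw [lhs_row] at h1
    simp only [row] at h1
    push_cast at h1
    have h2 := tau_vt (n := n) hi
    have h3 : Z (vt n k i) i = 1 / 2 := by unfold vt; rw [Z_mk hi, if_pos rfl]
    have h4 : X (vt n k i) i 0 = 0 := by unfold vt; rw [X_mk hi hn]
    unfold tau at h2
    unfold X at h4
    unfold Z at h1 h2 h3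
    linarith
  · intro hiA x hx
    rw [lhs_row]
    simp only [row]
    push_cast
    have h1 := hx.1 i hi 0 hn
    have h2 := hx.2.1
    have h3 := hx.2.2.2 i hi hiA
    unfold X at h1
    unfold tau at h2
    unfold Z at h2 h3 ⊢
    linarith

theorem tight_FF_inj (hn : 0 < n) {A B : Finset ℕ} (hA : A ⊆ Finset.range k)
    (hB : B ⊆ Finset.range k)
    (h : tight (sysOf n k adj) (FF (n := n) (k := k) A) =
      tight (sysOf n k adj) (FF (n := n) (k := k) B)) : A = B := by
  have key : ∀ i < k, i ∉ A ↔ i ∉ B := by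
    intro i hi
    rw [← row3_tight (A := A) hn hi, ← row3_tight (A := B) hn hi]
    exact tight_eq h ((mem_sysOf _).2 (Or.inl ⟨i, hi, 0, hn, by unfold rows1; simp⟩))
  ext i
  by_cases hi : i < k
  · have := key i hi; tauto
  · constructor
    · intro h; exact absurd (Finset.mem_range.1 (hA h)) hi
    · intro h; exact absurd (Finset.mem_range.1 (hB h)) hi

theorem tight_FF_ne_uc (hk : 0 < k) {A : Finset ℕ} {a : ℕ → ℕ}
    (ha : ∀ i < k, a i < n)
    (h : tight (sysOf n k adj) (FF (n := n) (k := k) A) =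
      tight (sysOf n k adj) {uc n k a}) : False := by
  have h1 := (tight_eq h ((mem_sysOf (row (-1) 0 0 0 0 (k * n) (k * n + k)
    (0 * n + a 0) 0 0)).2 (Or.inl ⟨0, hk, a 0, ha 0 hk, by unfold rows1; simp⟩))).1 (by
      intro x hx
      rw [lhs_row]
      simp only [row]
      push_cast
      have h1 := hx.1 0 hk (a 0) (ha 0 hk)
      unfold X at h1
      linarith)
  have h2 := h1 (uc n k a) rfl
  rw [lhs_row] at h2
  simp only [row] at h2
  push_cast at h2
  have h3 : X (uc n k a) 0 (a 0) = 1 := by unfold uc; rw [X_mk hk (ha 0 hk), if_pos rfl]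
  unfold X at h3
  linarith

/-- A choice of `k` pairwise adjacent vertices. -/
def Cliq (n k : ℕ) (adj : ℕ → ℕ → Bool) : Prop :=
  ∃ a : ℕ → ℕ, (∀ i < k, a i < n) ∧ ∀ j < k, ∀ i < j, adj (a i) (a j) = true

theorem card_nonempty_subsets (k : ℕ) :
    ((Finset.range k).powerset.erase ∅).card = 2 ^ k - 1 := by
  rw [Finset.card_erase_of_mem (Finset.empty_mem_powerset _), Finset.card_powerset,
    Finset.card_range]

theorem length_noClique (hn : 0 < n) (hk : 0 < k) (hcl : ¬ Cliq n k adj)
    {H : List (List ℕ) × List (ℕ × ℕ)} (hH : IsHasse (sysOf n k adj) H) :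
    H.1.length = 2 ^ k - 1 := by
  classical
  have h1 : H.1.toFinset = ((Finset.range k).powerset.erase ∅).image
      (fun A => tight (sysOf n k adj) (FF (n := n) (k := k) A)) := by
    ext t
    rw [List.mem_toFinset, hH.2.1, Finset.mem_image]
    constructor
    · rintro ⟨F, hF, rfl⟩
      have hE := hF.2.1
      rw [polyhedron_sysOf] at hE
      obtain ⟨A, hA, hA', rfl⟩ := faces_noClique adj hn hk hcl hF.1 hE hF.2.2
      exact ⟨A, by rw [Finset.mem_erase, Finset.mem_powerset]; exact ⟨hA'.ne_empty, hA⟩, rfl⟩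
    · rintro ⟨A, hA, rfl⟩
      rw [Finset.mem_erase, Finset.mem_powerset] at hA
      exact ⟨_, FF_mem hn hk hA.2 (Finset.nonempty_iff_ne_empty.2 hA.1), rfl⟩
  rw [← List.toFinset_card_of_nodup hH.1, h1, Finset.card_image_of_injOn, card_nonempty_subsets]
  intro A hA B hB h
  rw [Finset.mem_coe, Finset.mem_erase, Finset.mem_powerset] at hA hB
  exact tight_FF_inj hn hA.2 hB.2 h

theorem length_clique (hn : 0 < n) (hk : 0 < k) (hcl : Cliq n k adj)
    {H : List (List ℕ) × List (ℕ × ℕ)} (hH : IsHasse (sysOf n k adj) H) :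
    2 ^ k ≤ H.1.length := by
  classical
  obtain ⟨a, ha, ha2⟩ := hcl
  have h1 : insert (tight (sysOf n k adj) {uc n k a}) (((Finset.range k).powerset.erase ∅).image
      (fun A => tight (sysOf n k adj) (FF (n := n) (k := k) A))) ⊆ H.1.toFinset := by
    intro t ht
    rw [List.mem_toFinset, hH.2.1]
    rcases Finset.mem_insert.1 ht with rfl | ht
    · exact ⟨({uc n k a} : Set (Fin (k * n + k) → ℝ)), ⟨⟨_, rfl⟩,
        by rw [polyhedron_sysOf]; exact uc_exposed adj ha ha2,
        Bornology.isBounded_singleton⟩, rfl⟩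
    · rw [Finset.mem_image] at ht
      obtain ⟨A, hA, rfl⟩ := ht
      rw [Finset.mem_erase, Finset.mem_powerset] at hA
      exact ⟨_, FF_mem hn hk hA.2 (Finset.nonempty_iff_ne_empty.2 hA.1), rfl⟩
  have h2 := Finset.card_le_card h1
  rw [List.toFinset_card_of_nodup hH.1, Finset.card_insert_of_notMem (by
    rw [Finset.mem_image]
    rintro ⟨A, -, h⟩
    exact tight_FF_ne_uc hk ha h), Finset.card_image_of_injOn (by
      intro A hA B hB h
      rw [Finset.mem_coe, Finset.mem_erase, Finset.mem_powerset] at hA hB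
      exact tight_FF_inj hn hA.2 hB.2 h), card_nonempty_subsets] at h2
  have := Nat.one_le_two_pow (n := k)
  omega

/-- The set of bounded faces. -/
def bf (n k : ℕ) (adj : ℕ → ℕ → Bool) : Set (Set (Fin (k * n + k) → ℝ)) :=
  boundedFaces (sysOf n k adj)

theorem mem_bf {F : Set (Fin (k * n + k) → ℝ)} : F ∈ bf n k adj ↔
    F.Nonempty ∧ IsExposed ℝ (PP (n := n) (k := k) adj) F ∧ Bornology.IsBounded F := by
  rw [← polyhedron_sysOf]
  exact Iff.rfl

theorem encard_noClique (hn : 0 < n) (hk : 0 < k) (hcl : ¬ Cliq n k adj) :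
    (bf n k adj).encard = (2 ^ k - 1 : ℕ) := by
  classical
  have h1 : bf n k adj =
      (fun A => FF (n := n) (k := k) A) '' (((Finset.range k).powerset.erase ∅ : Finset _) :
        Set (Finset ℕ)) := by
    ext F
    rw [Set.mem_image]
    constructor
    · intro hF
      obtain ⟨h1, hE, h3⟩ := mem_bf.1 hF
      obtain ⟨A, hA, hA', rfl⟩ := faces_noClique adj hn hk hcl h1 hE h3
      exact ⟨A, by rw [Finset.mem_coe, Finset.mem_erase, Finset.mem_powerset];
                   exact ⟨hA'.ne_empty, hA⟩, rfl⟩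
    · rintro ⟨A, hA, rfl⟩
      rw [Finset.mem_coe, Finset.mem_erase, Finset.mem_powerset] at hA
      exact FF_mem hn hk hA.2 (Finset.nonempty_iff_ne_empty.2 hA.1)
  rw [h1, Set.InjOn.encard_image, Set.encard_coe_eq_coe_finsetCard, card_nonempty_subsets]
  intro A hA B hB h
  rw [Finset.mem_coe, Finset.mem_erase, Finset.mem_powerset] at hA hB
  exact tight_FF_inj (adj := adj) hn hA.2 hB.2 (congrArg (tight (sysOf n k adj)) h)

theorem encard_clique (hn : 0 < n) (hk : 0 < k) (hcl : Cliq n k adj) :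
    (2 ^ k : ℕ) ≤ (bf n k adj).encard := by
  classical
  obtain ⟨a, ha, ha2⟩ := hcl
  have h1 : ((insert ({uc n k a} : Set (Fin (k * n + k) → ℝ))
      (((Finset.range k).powerset.erase ∅).image (fun A => FF (n := n) (k := k) A)) : Finset _) :
        Set (Set (Fin (k * n + k) → ℝ))) ⊆ bf n k adj := by
    intro F hF
    rcases Finset.mem_insert.1 (Finset.mem_coe.1 hF) with rfl | hF
    · exact mem_bf.2 ⟨⟨_, rfl⟩, uc_exposed adj ha ha2, Bornology.isBounded_singleton⟩
    · rw [Finset.mem_image] at hF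
      obtain ⟨A, hA, rfl⟩ := hF
      rw [Finset.mem_erase, Finset.mem_powerset] at hA
      exact FF_mem hn hk hA.2 (Finset.nonempty_iff_ne_empty.2 hA.1)
  refine le_trans ?_ (Set.encard_le_encard h1)
  rw [Set.encard_coe_eq_coe_finsetCard, Nat.cast_le, Finset.card_insert_of_notMem (by
    rw [Finset.mem_image]
    rintro ⟨A, -, h⟩
    exact tight_FF_ne_uc (adj := adj) hk ha (congrArg (tight (sysOf n k adj)) h)),
    Finset.card_image_of_injOn (by
      intro A hA B hB h
      rw [Finset.mem_coe, Finset.mem_erase, Finset.mem_powerset] at hA hB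
      exact tight_FF_inj (adj := adj) hn hA.2 hB.2 (congrArg (tight (sysOf n k adj)) h)),
    card_nonempty_subsets]
  have := Nat.one_le_two_pow (n := k)
  omega

end Pool.Agent.W986.BF
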